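import Pool.Agent.Lib.H32W.Area

/-! Area form with a null set (the proof is helper32's `area_form`). -/

open Set Metric Filter Topology MeasureTheory

namespace Pool.Agent.Lib.H82R

open Pool.Agent.Lib.H42I (Ray IsPolygon Illuminable)
open Pool.Agent.Lib.H32W

/-- countably many parallel lines in each of two perpendicular directions have area zero -/
theorem null_rot {c : ℂ} (hc : ‖c‖ = 1) {A B : Set ℝ} (hA : A.Countable) (hB : B.Countable) :
    volume {z : ℂ | (c * z).re ∈ A ∨ (c * z).im ∈ B} = 0 := by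
  have h0 : volume ({z : ℂ | z.re ∈ A} ∪ {z : ℂ | z.im ∈ B}) = 0 :=
    measure_union_null (null_re hA) (null_im hB)
  have hm : MeasurableSet ({z : ℂ | z.re ∈ A} ∪ {z : ℂ | z.im ∈ B}) :=
    (Complex.measurable_re hA.measurableSet).union (Complex.measurable_im hB.measurableSet)
  have h1 := (rotation (⟨c, by simpa [Submonoid.unitSphere] using hc⟩ : Circle)).measurePreserving
  have h2 := h1.measure_preimage hm.nullMeasurableSet
  rw [h0] at h2
  convert h2 using 2
  ext z
  simp [rotation_apply]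

/-- outside a set of area zero there are interior points -/
theorem exists_generic {P N : Set ℂ} (h : (interior P).Nonempty) (hN : volume N = 0) :
    ∃ q ∈ interior P, q ∉ N := by
  by_contra hcon
  push Not at hcon
  have h1 : volume (interior P) = 0 := measure_mono_null hcon hN
  exact (isOpen_interior.measure_pos volume h).ne' h1

/-- For every null set `N` there is a compact set in the polygon, disjoint from `N`, which fills all
polygons near `P` up to a set of small area (the proof is that of helper32's `area_form`). -/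
theorem area_set {n : ℕ} {P : Set ℂ} {v : ZMod n → ℂ} (hP : IsPolygon P v) {N : Set ℂ}
    (hN : volume N = 0) (η : ℝ) (hη : 0 < η) :
    ∃ K : Set ℂ, IsCompact K ∧ K.Nonempty ∧ K ⊆ P ∧ (∀ q ∈ K, q ∉ N) ∧
      ∃ ε > 0, ∀ (P' : Set ℂ) (v' : ZMod n → ℂ), IsPolygon P' v' → (∀ i, ‖v' i - v i‖ < ε) →
        volume (P' \ K) < ENNReal.ofReal η := by
  have : NeZero n := ⟨by have := hP.three_le; omega⟩
  have hPm : MeasurableSet P := hP.compact.isClosed.measurableSet
  have hPf : volume P ≠ ⊤ := hP.compact.measure_lt_top.ne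
  obtain ⟨q₀, hq₀, hq₀N⟩ := exists_generic hP.connected.nonempty hN
  set M : Set ℂ := toMeasurable volume N with hM
  have hM0 : volume M = 0 := by rw [hM, measure_toMeasurable, hN]
  have hMm : MeasurableSet M := measurableSet_toMeasurable _ _
  have hNM : N ⊆ M := subset_toMeasurable _ _
  have hη2 : ENNReal.ofReal (η / 2) ≠ 0 := by
    rw [Ne, ENNReal.ofReal_eq_zero, not_le]; linarith
  have hPN : volume (P \ M) ≠ ⊤ :=
    (lt_of_le_of_lt (measure_mono sdiff_subset) (lt_top_iff_ne_top.2 hPf)).ne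
  obtain ⟨K, hK1, hK2, hK3⟩ := (hPm.diff hMm).exists_isCompact_sdiff_lt hPN hη2
  obtain ⟨U, hU1, hU2, _, hU3⟩ := hPm.exists_isOpen_sdiff_lt hPf hη2
  obtain ⟨ε₂, hε₂, h2⟩ := Metric.eventually_nhds_iff.1
    (subset_stable P v hP (Pool.Agent.H52W.facts hP) U hU2 hU1)
  refine ⟨K ∪ {q₀}, hK2.union isCompact_singleton, ⟨q₀, Or.inr rfl⟩, ?_, ?_, ε₂, hε₂,
    fun P' v' hP' hv' => ?_⟩
  · exact union_subset (hK1.trans sdiff_subset) (by simpa using interior_subset hq₀)
  · rintro q (hq | hq) hqN
    · exact (hK1 hq).2 (hNM hqN)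
    · rw [mem_singleton_iff.1 hq] at hqN
      exact hq₀N hqN
  have h3 : P' ⊆ U := by
    apply h2 (y := v') _ P' hP'
    rw [dist_pi_lt_iff hε₂]
    intro i
    rw [dist_eq_norm]
    exact hv' i
  have h4 : P' \ (K ∪ {q₀}) ⊆ (U \ P) ∪ ((P \ M) \ K) ∪ M := by
    rintro q ⟨hq1, hq2⟩
    have hqK : q ∉ K := fun hqK => hq2 (Or.inl hqK)
    by_cases hqN : q ∈ M
    · exact Or.inr hqN
    · left
      by_cases hqP : q ∈ P
      · exact Or.inr ⟨⟨hqP, hqN⟩, hqK⟩
      · exact Or.inl ⟨h3 hq1, hqP⟩
  calc volume (P' \ (K ∪ {q₀})) ≤ volume ((U \ P) ∪ ((P \ M) \ K) ∪ M) := measure_mono h4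
    _ ≤ volume (U \ P) + volume ((P \ M) \ K) + volume M :=
        (measure_union_le _ _).trans (add_le_add_left (measure_union_le _ _) _)
    _ = volume (U \ P) + volume ((P \ M) \ K) := by rw [hM0, add_zero]
    _ < ENNReal.ofReal (η / 2) + ENNReal.ofReal (η / 2) := ENNReal.add_lt_add hU3 hK3
    _ = ENNReal.ofReal η := by
        rw [← ENNReal.ofReal_add (by linarith) (by linarith)]; congr 1; ring

end Pool.Agent.Lib.H82R
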