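import Pool.Agent.Lib.H42I.Defs

/-! From one point to a compact set of points. -/

namespace Pool.Agent.Lib.H82R

open Set Metric Topology Pool.Agent.Lib.H42I

theorem unif {n : ℕ} {v : ZMod n → ℂ} {K : Set ℂ} (hK : IsCompact K)
    (h : ∀ q ∈ K, ∃ ε > 0, ∀ (P' : Set ℂ) (v' : ZMod n → ℂ), IsPolygon P' v' →
      (∀ i, ‖v' i - v i‖ < ε) → ∀ q' : ℂ, ‖q' - q‖ < ε → Illuminable P' v' q') :
    ∃ ε > 0, ∀ (P' : Set ℂ) (v' : ZMod n → ℂ), IsPolygon P' v' →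
      (∀ i, ‖v' i - v i‖ < ε) → ∀ q' : ℂ, (∃ q ∈ K, ‖q' - q‖ < ε) → Illuminable P' v' q' := by
  refine hK.induction_on (p := fun S => ∃ ε > 0, ∀ (P' : Set ℂ) (v' : ZMod n → ℂ),
    IsPolygon P' v' → (∀ i, ‖v' i - v i‖ < ε) → ∀ q' : ℂ, (∃ q ∈ S, ‖q' - q‖ < ε) →
      Illuminable P' v' q') ?_ ?_ ?_ ?_
  · exact ⟨1, one_pos, fun P' v' _ _ q' ⟨q, hq, _⟩ => absurd hq (notMem_empty q)⟩
  · rintro S T hST ⟨ε, hε, hT⟩
    exact ⟨ε, hε, fun P' v' hP' hv' q' ⟨q, hq, hqq⟩ => hT P' v' hP' hv' q' ⟨q, hST hq, hqq⟩⟩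
  · rintro S T ⟨ε₁, h₁, hS⟩ ⟨ε₂, h₂, hT⟩
    refine ⟨min ε₁ ε₂, lt_min h₁ h₂, fun P' v' hP' hv' q' ⟨q, hq, hqq⟩ => ?_⟩
    rcases hq with hq | hq
    · exact hS P' v' hP' (fun i => (hv' i).trans_le (min_le_left _ _)) q'
        ⟨q, hq, hqq.trans_le (min_le_left _ _)⟩
    · exact hT P' v' hP' (fun i => (hv' i).trans_le (min_le_right _ _)) q'
        ⟨q, hq, hqq.trans_le (min_le_right _ _)⟩
  · intro x hx
    obtain ⟨ε, hε, hx'⟩ := h x hx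
    refine ⟨ball x (ε / 2), mem_nhdsWithin_of_mem_nhds (ball_mem_nhds x (half_pos hε)), ε / 2,
      half_pos hε, fun P' v' hP' hv' q' ⟨q, hq, hqq⟩ => ?_⟩
    refine hx' P' v' hP' (fun i => (hv' i).trans (half_lt_self hε)) q' ?_
    have h1 : ‖q - x‖ < ε / 2 := by simpa [dist_eq_norm] using hq
    calc ‖q' - x‖ = ‖(q' - q) + (q - x)‖ := by ring_nf
      _ ≤ ‖q' - q‖ + ‖q - x‖ := norm_add_le _ _
      _ < ε := by linarith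

end Pool.Agent.Lib.H82R
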