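import Pool.Agent.Lib.H42I.Defs

/-! Robust part of MP_273810_co (OpenFamilies): basic notions. -/

namespace Pool.Agent.Lib.H82R

open Set Pool.Agent.Lib.H42I

/-- Determinant of two plane vectors. -/
def det (a b : ℂ) : ℝ := a.re * b.im - a.im * b.re

theorem det_add_right (a b c : ℂ) : det a (b + c) = det a b + det a c := by
  simp [det]; ring

theorem det_sub_right (a b c : ℂ) : det a (b - c) = det a b - det a c := by
  simp [det]; ring

theorem det_smul_right (a b : ℂ) (t : ℝ) : det a ((t : ℂ) * b) = t * det a b := by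
  simp [det]; ring

theorem det_smul_left (a b : ℂ) (t : ℝ) : det ((t : ℂ) * a) b = t * det a b := by
  simp [det]; ring

theorem det_neg_right (a b : ℂ) : det a (-b) = -det a b := by
  simp [det]; ring

theorem det_neg_left (a b : ℂ) : det (-a) b = -det a b := by
  simp [det]; ring

theorem det_self (a : ℂ) : det a a = 0 := by
  simp [det]; ring

theorem det_comm (a b : ℂ) : det b a = -det a b := by
  simp [det]; ring

theorem continuous_det : Continuous (fun p : ℂ × ℂ => det p.1 p.2) := by
  unfold det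
  fun_prop

/-- The vertices of `v'` are within `δ` of those of `v`. -/
def Near {n : ℕ} (v v' : ZMod n → ℂ) (δ : ℝ) : Prop := ∀ i, ‖v' i - v i‖ < δ

theorem Near.mono {n : ℕ} {v v' : ZMod n → ℂ} {δ ε : ℝ} (h : Near v v' δ) (hle : δ ≤ ε) :
    Near v v' ε := fun i => (h i).trans_le hle

/-- The sides met by the half line from `x` in direction `d`. -/
def Hit {n : ℕ} (v : ZMod n → ℂ) (x d : ℂ) : Set (ZMod n) :=
  {i | ∃ t : ℝ, 0 ≤ t ∧ x + (t : ℂ) * d ∈ segment ℝ (v i) (v (i + 1))}

/-- A segment that arrives at `w` from direction `u` may be moved: `w` is in the interior, or in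
the relative interior of a side, or a vertex and `u` is on the inner side of both lines. -/
def GoodEnd {n : ℕ} (P : Set ℂ) (v : ZMod n → ℂ) (w u : ℂ) : Prop :=
  w ∈ interior P ∨
  (∃ i, w ∈ openSegment ℝ (v i) (v (i + 1)) ∧ det (v (i + 1) - v i) u ≠ 0) ∨
  (∃ i, w = v i ∧ 0 < det (v i - v (i - 1)) u * det (v (i + 1) - v i) u)

/-- A light ray from `q` leaves `z` in direction `d` (`z = q` or `z` is a bounce point). -/
inductive Dep {n : ℕ} (P : Set ℂ) (v : ZMod n → ℂ) (q : ℂ) : ℂ → ℂ → Prop
  | start (d : ℂ) : d ≠ 0 → Dep P v q q d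
  | bounce (z d : ℂ) (i : ZMod n) (t : ℝ) : Dep P v q z d → 0 < t →
      openSegment ℝ z (z + (t : ℂ) * d) ⊆ interior P →
      z + (t : ℂ) * d ∈ openSegment ℝ (v i) (v (i + 1)) →
      Dep P v q (z + (t : ℂ) * d) (refl (v (i + 1) - v i) d)

end Pool.Agent.Lib.H82R
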