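import Pool.Agent.Lib.H52W.Rot

/-! The family theorem for polygons all of whose angles are multiples of a right angle, with the
statement that the rotation makes the sides horizontal and vertical (the proof is helper52's
`family_rot`). -/

namespace Pool.Agent.Lib.H82R

open Set
open Pool.Agent.Lib.H42I (Ray IsPolygon Illuminable)
open Pool.Agent.Lib.H52W

theorem family_axes {n : ℕ} {P : Set ℂ} {v : ZMod n → ℂ} (hP : IsPolygon P v)
    (hs : ∀ i, ((v (i + 1) - v i) * (starRingEnd ℂ) (v i - v (i - 1))).re = 0 ∨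
      ((v (i + 1) - v i) * (starRingEnd ℂ) (v i - v (i - 1))).im = 0) :
    ∃ c : ℂ, ‖c‖ = 1 ∧
      (∀ i, (c * v i).re = (c * v (i + 1)).re ∨ (c * v i).im = (c * v (i + 1)).im) ∧
      ∃ A B : Set ℝ, A.Countable ∧ B.Countable ∧
      ∀ q ∈ P, (c * q).re ∉ A → (c * q).im ∉ B →
        ∃ ε > 0, ∀ (P' : Set ℂ) (v' : ZMod n → ℂ), IsPolygon P' v' →
          (∀ i, ‖v' i - v i‖ < ε) → ∀ q' : ℂ, ‖q' - q‖ < ε → Illuminable P' v' q' := by
  obtain ⟨c, hc, hax⟩ := exists_rot hP hs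
  have hc0 : c ≠ 0 := by
    intro h
    rw [h, norm_zero] at hc
    exact zero_ne_one hc
  obtain ⟨A, B, hA, hB, h⟩ := Pool.Agent.Lib.H82R.family (isPolygon_mul hP hc0) hax
  refine ⟨c, hc, hax, A, B, hA, hB, ?_⟩
  intro q hq h1 h2
  obtain ⟨ε, hε, hh⟩ := h (c * q) (mem_image_of_mem _ hq) h1 h2
  refine ⟨ε, hε, ?_⟩
  intro P' v' hP' hv' q' hq'
  apply illuminable_of_mul hc0
  apply hh _ _ (isPolygon_mul hP' hc0)
  · intro i
    rw [← mul_sub, norm_mul, hc, one_mul]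
    exact hv' i
  · rw [← mul_sub, norm_mul, hc, one_mul]
    exact hq'

end Pool.Agent.Lib.H82R
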