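import Pool.Agent.Lib.H82R.Base

/-! S01. A preconnected set which avoids the frontier is inside or outside; points of a segment
near one of its relative interior points. -/

namespace Pool.Agent.Lib.H82R

open Set Pool.Agent.Lib.H42I

private theorem S01_par {u v : ℂ} (hu : u ≠ 0) (h : det u v = 0) :
    v = (((u.re * v.re + u.im * v.im) / (u.re ^ 2 + u.im ^ 2) : ℝ) : ℂ) * u := by
  have hpos : u.re ^ 2 + u.im ^ 2 ≠ 0 := by
    intro h0
    apply hu
    have h1 : u.re = 0 := by nlinarith [sq_nonneg u.re, sq_nonneg u.im]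
    have h2 : u.im = 0 := by nlinarith [sq_nonneg u.re, sq_nonneg u.im]
    exact Complex.ext h1 h2
  unfold det at h
  apply Complex.ext
  · rw [Complex.re_ofReal_mul]
    field_simp
    linear_combination (-u.im) * h
  · rw [Complex.im_ofReal_mul]
    field_simp
    linear_combination u.re * h

theorem sep {P C : Set ℂ} (hC : IsPreconnected C) (hf : Disjoint C (frontier P)) :
    C ⊆ interior P ∨ C ⊆ Pᶜ := by
  have h1 : C ⊆ interior P ∪ interior Pᶜ := by
    intro x hx
    by_cases h : x ∈ interior P
    · exact Or.inl h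
    · right
      rw [interior_compl]
      intro hc
      exact disjoint_left.1 hf hx ⟨hc, h⟩
  have h2 : Disjoint (interior P) (interior Pᶜ) :=
    disjoint_of_subset interior_subset interior_subset disjoint_compl_right
  rcases IsPreconnected.subset_or_subset isOpen_interior isOpen_interior h2 h1 hC with h | h
  · exact Or.inl h
  · exact Or.inr (h.trans interior_subset)

/-- If `m` is inside and the half open segment from `m` avoids the frontier, it stays inside. -/
theorem segment_inside {P : Set ℂ} {m w : ℂ} (hm : m ∈ interior P)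
    (h : ∀ y ∈ openSegment ℝ m w, y ∉ frontier P) : openSegment ℝ m w ⊆ interior P := by
  have hC : IsPreconnected ((fun t : ℝ => m + t • (w - m)) '' Ico 0 1) :=
    isPreconnected_Ico.image _ (by fun_prop)
  have hmem : ∀ y ∈ openSegment ℝ m w, y ∈ (fun t : ℝ => m + t • (w - m)) '' Ico 0 1 := by
    intro y hy
    rw [openSegment_eq_image'] at hy
    obtain ⟨t, ht, rfl⟩ := hy
    exact ⟨t, ⟨ht.1.le, ht.2⟩, rfl⟩
  have hd : Disjoint ((fun t : ℝ => m + t • (w - m)) '' Ico 0 1) (frontier P) := by
    rw [disjoint_left]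
    rintro y ⟨t, ht, rfl⟩ hy
    rcases ht.1.eq_or_lt with h0 | h0
    · subst h0
      simp only [zero_smul, add_zero] at hy
      exact hy.2 hm
    · refine h _ ?_ hy
      rw [openSegment_eq_image']
      exact ⟨t, ⟨h0, ht.2⟩, rfl⟩
  rcases sep hC hd with h1 | h1
  · exact fun y hy => h1 (hmem y hy)
  · exfalso
    have h2 : m ∈ (fun t : ℝ => m + t • (w - m)) '' Ico 0 1 :=
      ⟨0, ⟨le_refl _, zero_lt_one⟩, by simp⟩
    exact h1 h2 (interior_subset hm)

/-- Near a relative interior point of a segment, the line of the segment is in the segment. -/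
theorem line_local {a b x : ℂ} (hab : a ≠ b) (hx : x ∈ openSegment ℝ a b) :
    ∃ r > 0, ∀ y, ‖y - x‖ < r → det (b - a) (y - x) = 0 → y ∈ openSegment ℝ a b := by
  rw [openSegment_eq_image'] at hx
  obtain ⟨t, ht, rfl⟩ := hx
  have hba : b - a ≠ 0 := sub_ne_zero.2 hab.symm
  have hn : 0 < ‖b - a‖ := norm_pos_iff.2 hba
  refine ⟨min t (1 - t) * ‖b - a‖, mul_pos (lt_min ht.1 (by linarith [ht.2])) hn, ?_⟩
  intro y hy hdet
  obtain ⟨s, hs⟩ : ∃ s : ℝ, y - (a + t • (b - a)) = (s : ℂ) * (b - a) := ⟨_, S01_par hba hdet⟩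
  rw [hs, norm_mul, Complex.norm_real, Real.norm_eq_abs] at hy
  have h1 : |s| < min t (1 - t) := lt_of_mul_lt_mul_right hy hn.le
  have h2 := abs_lt.1 (lt_of_lt_of_le h1 (min_le_left _ _))
  have h3 := abs_lt.1 (lt_of_lt_of_le h1 (min_le_right _ _))
  rw [openSegment_eq_image']
  refine ⟨t + s, ⟨by linarith, by linarith⟩, ?_⟩
  have h4 : y = a + t • (b - a) + (s : ℂ) * (b - a) := by
    rw [← hs]
    ring
  rw [h4]
  simp only [Complex.real_smul]
  push_cast
  ring

/-- A segment meets a line that does not contain one of its ends at most once. -/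
theorem line_once {a b m w x y : ℂ} (hm : det (b - a) (m - a) ≠ 0)
    (hx : x ∈ segment ℝ m w) (hy : y ∈ segment ℝ m w) (hxl : det (b - a) (x - a) = 0)
    (hyl : det (b - a) (y - a) = 0) : x = y := by
  rw [segment_eq_image'] at hx hy
  obtain ⟨t, _, rfl⟩ := hx
  obtain ⟨t', _, rfl⟩ := hy
  have e1 : ∀ t : ℝ, det (b - a) (m + t • (w - m) - a) =
      det (b - a) (m - a) + t * det (b - a) (w - m) := by
    intro t
    have h : m + t • (w - m) - a = (m - a) + (t : ℂ) * (w - m) := by
      rw [Complex.real_smul]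
      ring
    rw [h, det_add_right, det_smul_right]
  simp only [e1] at hxl hyl
  have h1 : det (b - a) (w - m) ≠ 0 := by
    intro h0
    rw [h0, mul_zero, add_zero] at hxl
    exact hm hxl
  have h2 : (t - t') * det (b - a) (w - m) = 0 := by linarith
  rcases mul_eq_zero.1 h2 with h3 | h3
  · rw [sub_eq_zero.1 h3]
  · exact absurd h3 h1

theorem det_of_mem_segment {a b x : ℂ} (hx : x ∈ segment ℝ a b) : det (b - a) (x - a) = 0 := by
  rw [segment_eq_image'] at hx
  obtain ⟨t, _, rfl⟩ := hx
  have h : a + t • (b - a) - a = (t : ℂ) * (b - a) := by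
    rw [Complex.real_smul]
    ring
  simp only [h]
  rw [det_smul_right, det_self, mul_zero]

end Pool.Agent.Lib.H82R
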