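import Pool.Agent.Lib.H82R.S01

/-! S02. Local structure of a polygon at a relative interior point of a side: exactly one of the
two half discs is inside.
Hint. Isolation: x is in no other side (`simple`, x is not a vertex: x in openSegment, injective
v), the other sides are compact and finite in number (ZMod n, 3 <= n), so a small disc around x
meets only side i; with `line_local` it meets frontier P only on the line. The half discs
{0 < det ..}, {det .. < 0} are convex, hence preconnected, `sep`. Both inside: the disc without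
the line is inside P, P closed, so x in interior P, but x in frontier P. Both outside:
x not in closure (interior P) = P. -/

namespace Pool.Agent.Lib.H82R

open Set Pool.Agent.Lib.H42I

private theorem isClosed_seg (a b : ℂ) : IsClosed (segment ℝ a b) := by
  rw [← closure_openSegment]
  exact isClosed_closure

private theorem ne_succ {n : ℕ} {P : Set ℂ} {v : ZMod n → ℂ} (hP : IsPolygon P v) (i : ZMod n) :
    v i ≠ v (i + 1) := by
  intro h
  have h1 := hP.inj h
  have h3 := hP.three_le
  have h2 : (1 : ZMod n) = 0 := by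
    have h4 : i + 0 = i + 1 := by rw [add_zero]; exact h1
    exact (add_left_cancel h4).symm
  have h5 : Fact (1 < n) := ⟨by omega⟩
  exact one_ne_zero h2

private theorem not_vertex {n : ℕ} {P : Set ℂ} {v : ZMod n → ℂ} (hP : IsPolygon P v) {i : ZMod n}
    {x : ℂ} (hx : x ∈ openSegment ℝ (v i) (v (i + 1))) : x ≠ v i ∧ x ≠ v (i + 1) := by
  refine ⟨?_, ?_⟩
  · intro h
    rw [h] at hx
    exact ne_succ hP i (left_mem_openSegment_iff.1 hx)
  · intro h
    rw [h] at hx
    exact ne_succ hP i (right_mem_openSegment_iff.1 hx)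

theorem side_isolated {n : ℕ} {P : Set ℂ} {v : ZMod n → ℂ} (hP : IsPolygon P v) {i : ZMod n}
    {x : ℂ} (hx : x ∈ openSegment ℝ (v i) (v (i + 1))) :
    ∃ r > 0, ∀ j, j ≠ i → ∀ y ∈ segment ℝ (v j) (v (j + 1)), r ≤ ‖y - x‖ := by
  have hn : NeZero n := ⟨by have := hP.three_le; omega⟩
  have hcl : IsClosed (⋃ j : {j : ZMod n // j ≠ i}, segment ℝ (v j.1) (v (j.1 + 1))) := by
    apply isClosed_iUnion_of_finite
    intro j
    exact isClosed_seg _ _
  have hxn : x ∈ (⋃ j : {j : ZMod n // j ≠ i}, segment ℝ (v j.1) (v (j.1 + 1)))ᶜ := by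
    rw [mem_compl_iff, mem_iUnion]
    rintro ⟨⟨j, hj⟩, hj2⟩
    have h1 := hP.simple i j (Ne.symm hj) ⟨openSegment_subset_segment ℝ _ _ hx, hj2⟩
    rcases h1.1 with h2 | h2
    · exact (not_vertex hP hx).1 h2
    · exact (not_vertex hP hx).2 h2
  obtain ⟨r, hr, hr2⟩ := Metric.isOpen_iff.1 hcl.isOpen_compl x hxn
  refine ⟨r, hr, ?_⟩
  intro j hj y hy
  by_contra hlt
  push Not at hlt
  have h3 : y ∈ Metric.ball x r := by
    rw [Metric.mem_ball, dist_eq_norm]
    exact hlt
  exact hr2 h3 (mem_iUnion.2 ⟨⟨j, hj⟩, hy⟩)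

theorem halfdisc {n : ℕ} {P : Set ℂ} {v : ZMod n → ℂ} (hP : IsPolygon P v) {i : ZMod n}
    {x : ℂ} (hx : x ∈ openSegment ℝ (v i) (v (i + 1))) :
    ∃ r > 0, ∃ σ : ℝ, (σ = 1 ∨ σ = -1) ∧ ∀ y, ‖y - x‖ < r →
      (0 < σ * det (v (i + 1) - v i) (y - x) → y ∈ interior P) ∧
      (σ * det (v (i + 1) - v i) (y - x) < 0 → y ∉ P) ∧
      (det (v (i + 1) - v i) (y - x) = 0 → y ∈ openSegment ℝ (v i) (v (i + 1))) := by
  obtain ⟨r1, hr1, h1⟩ := side_isolated hP hx
  obtain ⟨r2, hr2, h2⟩ := line_local (ne_succ hP i) hx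
  set r := min r1 r2 with hrdef
  have hr : 0 < r := lt_min hr1 hr2
  have hrr1 : r ≤ r1 := min_le_left _ _
  have hrr2 : r ≤ r2 := min_le_right _ _
  set u := v (i + 1) - v i with hu
  have hside : segment ℝ (v i) (v (i + 1)) ⊆ frontier P := by
    rw [hP.frontier_eq]
    exact subset_iUnion (fun i => segment ℝ (v i) (v (i + 1))) i
  have hxs : x ∈ segment ℝ (v i) (v (i + 1)) := openSegment_subset_segment ℝ _ _ hx
  have hxf : x ∈ frontier P := hside hxs
  have hfP : frontier P ⊆ P := hP.compact.isClosed.frontier_subset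
  have hfr : ∀ y, ‖y - x‖ < r → det u (y - x) ≠ 0 → y ∉ frontier P := by
    intro y hy hd hyf
    rw [hP.frontier_eq, mem_iUnion] at hyf
    obtain ⟨j, hj⟩ := hyf
    by_cases hji : j = i
    · rw [hji] at hj
      have h3 := det_of_mem_segment hj
      have h4 := det_of_mem_segment hxs
      apply hd
      have h5 : y - x = (y - v i) - (x - v i) := by ring
      rw [h5, det_sub_right, hu, h3, h4, sub_zero]
    · exact absurd (h1 j hji y hj) (not_le.2 (lt_of_lt_of_le hy hrr1))
  have hconv : ∀ s : ℝ, Convex ℝ {y : ℂ | ‖y - x‖ < r ∧ 0 < s * det u (y - x)} := by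
    intro s
    have hb : {y : ℂ | ‖y - x‖ < r ∧ 0 < s * det u (y - x)} =
        Metric.ball x r ∩ {y : ℂ | 0 < s * det u (y - x)} := by
      ext y
      simp only [mem_setOf_eq, mem_inter_iff, Metric.mem_ball, dist_eq_norm]
    rw [hb]
    apply (convex_ball x r).inter
    intro y hy z hz a b ha hb2 hab
    simp only [mem_setOf_eq] at hy hz ⊢
    have h6 : a • y + b • z - x = (a : ℂ) * (y - x) + (b : ℂ) * (z - x) := by
      have h7 : (a : ℂ) + (b : ℂ) = 1 := by
        rw [← Complex.ofReal_add, hab, Complex.ofReal_one]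
      rw [Complex.real_smul, Complex.real_smul]
      linear_combination x * h7
    rw [h6, det_add_right, det_smul_right, det_smul_right]
    have h8 : s * (a * det u (y - x) + b * det u (z - x)) =
        a * (s * det u (y - x)) + b * (s * det u (z - x)) := by ring
    rw [h8]
    rcases lt_or_eq_of_le ha with h9 | h9
    · exact add_pos_of_pos_of_nonneg (mul_pos h9 hy) (mul_nonneg hb2 hz.le)
    · rw [← h9] at hab ⊢
      rw [zero_add] at hab
      rw [hab]
      linarith
  have hsep : ∀ s : ℝ, s ≠ 0 → ({y : ℂ | ‖y - x‖ < r ∧ 0 < s * det u (y - x)} ⊆ interior P ∨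
      {y : ℂ | ‖y - x‖ < r ∧ 0 < s * det u (y - x)} ⊆ Pᶜ) := by
    intro s _
    apply sep (hconv s).isPreconnected
    rw [Set.disjoint_left]
    rintro y ⟨hy1, hy2⟩ hy3
    refine hfr y hy1 ?_ hy3
    intro h0
    rw [h0, mul_zero] at hy2
    exact lt_irrefl _ hy2
  have hline : ∀ y, ‖y - x‖ < r → det u (y - x) = 0 → y ∈ openSegment ℝ (v i) (v (i + 1)) :=
    fun y hy hd => h2 y (lt_of_lt_of_le hy hrr2) hd
  rcases hsep 1 one_ne_zero with hp | hp <;> rcases hsep (-1) (by norm_num) with hm | hm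
  · -- both inside
    exfalso
    have hball : Metric.ball x r ⊆ P := by
      intro y hy
      rw [Metric.mem_ball, dist_eq_norm] at hy
      rcases lt_trichotomy (det u (y - x)) 0 with h | h | h
      · exact interior_subset (hm ⟨hy, by linarith⟩)
      · exact hfP (hside (openSegment_subset_segment ℝ _ _ (hline y hy h)))
      · exact interior_subset (hp ⟨hy, by linarith⟩)
    have hxi : x ∈ interior P :=
      mem_interior.2 ⟨Metric.ball x r, hball, Metric.isOpen_ball, Metric.mem_ball_self hr⟩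
    exact hxf.2 hxi
  · refine ⟨r, hr, 1, Or.inl rfl, ?_⟩
    intro y hy
    refine ⟨fun h => hp ⟨hy, h⟩, fun h => ?_, hline y hy⟩
    exact hm ⟨hy, by linarith⟩
  · refine ⟨r, hr, -1, Or.inr rfl, ?_⟩
    intro y hy
    refine ⟨fun h => hm ⟨hy, h⟩, fun h => ?_, hline y hy⟩
    exact hp ⟨hy, by linarith⟩
  · -- both outside
    exfalso
    have hxc : x ∈ closure (interior P) := by
      rw [hP.closure_interior]
      exact hfP hxf
    obtain ⟨z, hz, hzr⟩ := Metric.mem_closure_iff.1 hxc r hr
    have hzr2 : ‖z - x‖ < r := by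
      rw [← dist_eq_norm, dist_comm]
      exact hzr
    rcases lt_trichotomy (det u (z - x)) 0 with h | h | h
    · exact hm ⟨hzr2, by linarith⟩ (interior_subset hz)
    · have h3 : z ∈ frontier P :=
        hside (openSegment_subset_segment ℝ _ _ (hline z hzr2 h))
      exact h3.2 hz
    · exact hp ⟨hzr2, by linarith⟩ (interior_subset hz)

end Pool.Agent.Lib.H82R
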