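import Pool.Agent.Lib.H82R.S02

/-! S03. Parity. Hint: induction on the number of sides met, for all x on the ray (d fixed).
No side met: the closed ray is preconnected and avoids frontier P, `sep`; it is unbounded and P is
compact, so it is outside. Otherwise: every side met is met exactly once, in a relative interior
point, transversally (the ray contains no vertex), different sides at different parameters
(`simple`); take the side met first, parameter t1 > 0 (x is not in the frontier); just before and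
just after t1 the ray is on different sides (`halfdisc`); [x, before] avoids the frontier; the
point y just after has Hit v y d = Hit v x d minus this side. -/

namespace Pool.Agent.Lib.H82R

open Set Pool.Agent.Lib.H42I

private theorem parallel27 {e d : ℂ} (he : e ≠ 0) (h : det e d = 0) : ∃ c : ℝ, d = (c : ℂ) * e := by
  unfold det at h
  have hN : 0 < e.re ^ 2 + e.im ^ 2 := by
    rcases eq_or_ne e.re 0 with h1 | h1
    · have h2 : e.im ≠ 0 := fun h2 => he (Complex.ext h1 h2)
      positivity
    · positivity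
  refine ⟨(d.re * e.re + d.im * e.im) / (e.re ^ 2 + e.im ^ 2), ?_⟩
  apply Complex.ext
  · simp only [Complex.mul_re, Complex.ofReal_re, Complex.ofReal_im, zero_mul, sub_zero]
    rw [div_mul_eq_mul_div, eq_div_iff hN.ne']
    linear_combination (-e.im) * h
  · simp only [Complex.mul_im, Complex.ofReal_re, Complex.ofReal_im, zero_mul, add_zero]
    rw [div_mul_eq_mul_div, eq_div_iff hN.ne']
    linear_combination e.re * h

private theorem mem_seg27 {a b y : ℂ} (h : y ∈ segment ℝ a b) :
    ∃ s : ℝ, 0 ≤ s ∧ s ≤ 1 ∧ y = a + (s : ℂ) * (b - a) := by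
  rw [segment_eq_image'] at h
  obtain ⟨s, hs, rfl⟩ := h
  exact ⟨s, hs.1, hs.2, by simp⟩

private theorem det_ne27 {n : ℕ} {P : Set ℂ} {v : ZMod n → ℂ} (hP : IsPolygon P v) {x d : ℂ}
    (hd : d ≠ 0) (hv : ∀ i, ∀ t : ℝ, 0 ≤ t → x + (t : ℂ) * d ≠ v i) {i : ZMod n} {t : ℝ}
    (ht : 0 ≤ t) (h : x + (t : ℂ) * d ∈ segment ℝ (v i) (v (i + 1))) :
    det (v (i + 1) - v i) d ≠ 0 := by
  intro h0
  have h3 := hP.three_le
  have he : v (i + 1) - v i ≠ 0 := by
    intro h1
    have h2 := hP.inj (sub_eq_zero.1 h1)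
    have h4 : (1 : ZMod n) = 0 := by simpa using h2
    have : Fact (1 < n) := ⟨by omega⟩
    exact one_ne_zero h4
  obtain ⟨c, hc⟩ := parallel27 he h0
  obtain ⟨s, hs0, hs1, hs⟩ := mem_seg27 h
  have hc0 : c ≠ 0 := by
    rintro rfl
    apply hd
    rw [hc]
    simp
  have hcC : (c : ℂ) ≠ 0 := by exact_mod_cast hc0
  rcases lt_or_gt_of_ne hc0 with hneg | hpos
  · -- the ray runs to `v i`
    apply hv i (t + -s / c) (by
      have : 0 ≤ -s / c := div_nonneg_of_nonpos (by linarith) hneg.le
      linarith)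
    push_cast
    have h5 : x + (t : ℂ) * d = v i + (s : ℂ) * (v (i + 1) - v i) := hs
    have h6 : (-(s : ℂ) / c) * d = -(s : ℂ) * (v (i + 1) - v i) := by
      rw [hc]
      field_simp
    rw [add_mul, ← add_assoc, h5, h6]
    ring
  · apply hv (i + 1) (t + (1 - s) / c) (by
      have : 0 ≤ (1 - s) / c := div_nonneg (by linarith) hpos.le
      linarith)
    push_cast
    have h5 : x + (t : ℂ) * d = v i + (s : ℂ) * (v (i + 1) - v i) := hs
    have h6 : ((1 - (s : ℂ)) / c) * d = (1 - (s : ℂ)) * (v (i + 1) - v i) := by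
      rw [hc]
      field_simp
    rw [add_mul, ← add_assoc, h5, h6]
    ring

private theorem det_line27 (e a x d : ℂ) (t : ℝ) :
    det e (x + (t : ℂ) * d - a) = det e (x - a) + t * det e d := by
  rw [show x + (t : ℂ) * d - a = (x - a) + (t : ℂ) * d by ring, det_add_right, det_smul_right]

private theorem param_unique27 {n : ℕ} {P : Set ℂ} {v : ZMod n → ℂ} (hP : IsPolygon P v) {x d : ℂ}
    (hd : d ≠ 0) (hv : ∀ i, ∀ t : ℝ, 0 ≤ t → x + (t : ℂ) * d ≠ v i) {i : ZMod n} {t s : ℝ}
    (ht : 0 ≤ t) (h : x + (t : ℂ) * d ∈ segment ℝ (v i) (v (i + 1)))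
    (hs : x + (s : ℂ) * d ∈ segment ℝ (v i) (v (i + 1))) : s = t := by
  have h0 := det_ne27 hP hd hv ht h
  have h1 := det_of_mem_segment h
  have h2 := det_of_mem_segment hs
  rw [det_line27] at h1 h2
  have h3 : (s - t) * det (v (i + 1) - v i) d = 0 := by linear_combination h2 - h1
  rcases mul_eq_zero.1 h3 with h4 | h4
  · linarith
  · exact absurd h4 h0

private theorem open_of_hit27 {n : ℕ} {v : ZMod n → ℂ} {x d : ℂ}
    (hv : ∀ i, ∀ t : ℝ, 0 ≤ t → x + (t : ℂ) * d ≠ v i) {i : ZMod n} {t : ℝ}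
    (ht : 0 ≤ t) (h : x + (t : ℂ) * d ∈ segment ℝ (v i) (v (i + 1))) :
    x + (t : ℂ) * d ∈ openSegment ℝ (v i) (v (i + 1)) :=
  mem_openSegment_of_ne_left_right (fun h1 => hv i t ht h1.symm)
    (fun h1 => hv (i + 1) t ht h1.symm) h

theorem parity {n : ℕ} {P : Set ℂ} {v : ZMod n → ℂ} (hP : IsPolygon P v) {x d : ℂ}
    (hx : x ∉ frontier P) (hd : d ≠ 0) (hv : ∀ i, ∀ t : ℝ, 0 ≤ t → x + (t : ℂ) * d ≠ v i) :
    x ∈ P ↔ Odd (Hit v x d).ncard := by
  have h3 := hP.three_le
  have : NeZero n := ⟨by omega⟩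
  obtain ⟨k, hk⟩ : ∃ k, (Hit v x d).ncard = k := ⟨_, rfl⟩
  induction k generalizing x with
  | zero =>
    rw [hk]
    have h0 : Hit v x d = ∅ := (Set.ncard_eq_zero (Set.toFinite _)).1 hk
    constructor
    · intro hxP
      exfalso
      set C : Set ℂ := (fun t : ℝ => x + (t : ℂ) * d) '' Ici 0 with hC
      have hCp : IsPreconnected C := by
        apply IsPreconnected.image isPreconnected_Ici
        apply Continuous.continuousOn
        fun_prop
      have hCf : Disjoint C (frontier P) := by
        rw [Set.disjoint_left]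
        rintro _ ⟨t, ht, rfl⟩ hf
        rw [hP.frontier_eq, Set.mem_iUnion] at hf
        obtain ⟨j, hj⟩ := hf
        have : j ∈ Hit v x d := ⟨t, ht, hj⟩
        rw [h0] at this
        exact this
      have hxC : x ∈ C := ⟨0, by simp, by simp⟩
      rcases sep hCp hCf with h1 | h1
      · -- unbounded
        obtain ⟨M, hM⟩ := hP.compact.isBounded.exists_norm_le
        have hdn : 0 < ‖d‖ := norm_pos_iff.2 hd
        have hM0 : 0 ≤ M := (norm_nonneg _).trans (hM x hxP)
        have hy : x + (((M + M + 1) / ‖d‖ : ℝ) : ℂ) * d ∈ C := ⟨(M + M + 1) / ‖d‖, by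
          simp only [mem_Ici]; positivity, rfl⟩
        have h2 := hM _ (interior_subset (h1 hy))
        have h4 : ‖(((M + M + 1) / ‖d‖ : ℝ) : ℂ) * d‖ = M + M + 1 := by
          rw [norm_mul, Complex.norm_real, Real.norm_of_nonneg (by positivity)]
          field_simp
        have h5 : ‖(((M + M + 1) / ‖d‖ : ℝ) : ℂ) * d‖
            ≤ ‖x + (((M + M + 1) / ‖d‖ : ℝ) : ℂ) * d‖ + ‖x‖ := by
          have := norm_sub_le (x + (((M + M + 1) / ‖d‖ : ℝ) : ℂ) * d) x
          simpa using this
        have h6 := hM x hxP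
        linarith
      · exact h1 hxC hxP
    · intro h
      simp at h
  | succ k ih =>
    -- the parameters
    have hne : (Hit v x d).Nonempty := by
      rw [Set.nonempty_iff_ne_empty]
      intro h
      rw [h] at hk
      simp at hk
    choose! τ hτ0 hτ using (fun (j : ZMod n) (hj : j ∈ Hit v x d) => hj)
    obtain ⟨i, hi, himin⟩ := Set.exists_min_image (Hit v x d) τ (Set.toFinite _) hne
    have ht0 : 0 < τ i := by
      rcases (hτ0 i hi).lt_or_eq with h | h
      · exact h
      · exfalso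
        apply hx
        have h1 := hτ i hi
        rw [← h] at h1
        rw [hP.frontier_eq, Set.mem_iUnion]
        exact ⟨i, by simpa using h1⟩
    have hother : ∀ j ∈ Hit v x d, j ≠ i → τ i < τ j := by
      intro j hj hji
      rcases (himin j hj).lt_or_eq with h | h
      · exact h
      · exfalso
        have h1 := hτ i hi
        have h2 := hτ j hj
        rw [← h] at h2
        have h4 := (hP.simple i j (Ne.symm hji) ⟨h1, h2⟩).1
        rcases h4 with h5 | h5
        · exact hv i (τ i) (hτ0 i hi) h5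
        · exact hv (i + 1) (τ i) (hτ0 i hi) h5
    have hdet := det_ne27 hP hd hv (hτ0 i hi) (hτ i hi)
    have hopen := open_of_hit27 hv (hτ0 i hi) (hτ i hi)
    obtain ⟨r, hr, σ, hσ, hdisc⟩ := halfdisc hP hopen
    -- epsilon
    have hdn : 0 < ‖d‖ := norm_pos_iff.2 hd
    have hev : ∀ᶠ ε in nhdsWithin (0 : ℝ) (Ioi 0), (ε < τ i ∧ ε * ‖d‖ < r) ∧ 0 < ε ∧
        ∀ j : ZMod n, j ∈ Hit v x d → j ≠ i → τ i + ε < τ j := by
      refine Filter.Eventually.and ?_ (Filter.Eventually.and ?_ ?_)
      · refine Filter.Eventually.and ?_ ?_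
        · filter_upwards [Ioo_mem_nhdsGT ht0] with ε hε using hε.2
        · filter_upwards [Ioo_mem_nhdsGT (show (0 : ℝ) < r / ‖d‖ by positivity)] with ε hε
          exact (lt_div_iff₀ hdn).1 hε.2
      · exact self_mem_nhdsWithin
      · rw [Filter.eventually_all]
        intro j
        by_cases hj : j ∈ Hit v x d ∧ j ≠ i
        · have h1 := hother j hj.1 hj.2
          filter_upwards [Ioo_mem_nhdsGT (show (0 : ℝ) < τ j - τ i by linarith)] with ε hε _ _
          linarith [hε.2]
        · exact Filter.Eventually.of_forall (fun ε h1 h2 => absurd ⟨h1, h2⟩ hj)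
    obtain ⟨ε, ⟨hε1, hε2⟩, hε0, hε3⟩ := hev.exists
    set z : ℂ := x + (τ i : ℂ) * d with hz
    set ym : ℂ := x + ((τ i - ε : ℝ) : ℂ) * d with hym
    set yp : ℂ := x + ((τ i + ε : ℝ) : ℂ) * d with hyp
    have hym1 : ym - z = ((-ε : ℝ) : ℂ) * d := by
      rw [hym, hz]; push_cast; ring
    have hyp1 : yp - z = (ε : ℂ) * d := by
      rw [hyp, hz]; push_cast; ring
    have hnm : ‖ym - z‖ < r := by
      rw [hym1, norm_mul, Complex.norm_real, Real.norm_eq_abs, abs_neg, abs_of_pos hε0]
      exact hε2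
    have hnp : ‖yp - z‖ < r := by
      rw [hyp1, norm_mul, Complex.norm_real, Real.norm_eq_abs, abs_of_pos hε0]
      exact hε2
    have hdm : det (v (i + 1) - v i) (ym - z) = -ε * det (v (i + 1) - v i) d := by
      rw [hym1, det_smul_right]
    have hdp : det (v (i + 1) - v i) (yp - z) = ε * det (v (i + 1) - v i) d := by
      rw [hyp1, det_smul_right]
    have hclosed : IsClosed P := hP.compact.isClosed
    -- opposite sides
    have hσ0 : σ ≠ 0 := by rcases hσ with h | h <;> rw [h] <;> norm_num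
    have hκ : σ * det (v (i + 1) - v i) d ≠ 0 := mul_ne_zero hσ0 hdet
    have hopp : (ym ∈ interior P ∧ yp ∉ P) ∨ (ym ∉ P ∧ yp ∈ interior P) := by
      obtain ⟨hm1, hm2, -⟩ := hdisc ym hnm
      obtain ⟨hp1, hp2, -⟩ := hdisc yp hnp
      rw [hdm] at hm1 hm2
      rw [hdp] at hp1 hp2
      rcases lt_or_gt_of_ne hκ with h | h
      · left
        exact ⟨hm1 (by nlinarith), hp2 (by nlinarith)⟩
      · right
        exact ⟨hm2 (by nlinarith), hp1 (by nlinarith)⟩
    -- x and ym on the same side
    have hsame : x ∈ P ↔ ym ∈ P := by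
      set C : Set ℂ := (fun t : ℝ => x + (t : ℂ) * d) '' Icc 0 (τ i - ε) with hC
      have hCp : IsPreconnected C := by
        apply IsPreconnected.image isPreconnected_Icc
        apply Continuous.continuousOn
        fun_prop
      have hCf : Disjoint C (frontier P) := by
        rw [Set.disjoint_left]
        rintro _ ⟨t, ht, rfl⟩ hf
        rw [hP.frontier_eq, Set.mem_iUnion] at hf
        obtain ⟨j, hj⟩ := hf
        have hjH : j ∈ Hit v x d := ⟨t, ht.1, hj⟩
        have h1 := himin j hjH
        have h2 := param_unique27 hP hd hv (hτ0 j hjH) (hτ j hjH) hj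
        have h4 := ht.2
        linarith
      have hxC : x ∈ C := ⟨0, ⟨le_rfl, by linarith⟩, by simp⟩
      have hyC : ym ∈ C := ⟨τ i - ε, ⟨by linarith, le_rfl⟩, rfl⟩
      rcases sep hCp hCf with h1 | h1
      · exact ⟨fun _ => interior_subset (h1 hyC), fun _ => interior_subset (h1 hxC)⟩
      · exact ⟨fun h => absurd h (h1 hxC), fun h => absurd h (h1 hyC)⟩
    have hxp : x ∈ P ↔ yp ∉ P := by
      rw [hsame]
      rcases hopp with ⟨h1, h2⟩ | ⟨h1, h2⟩
      · exact ⟨fun _ => h2, fun _ => interior_subset h1⟩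
      · exact ⟨fun h => absurd h h1, fun h => absurd (interior_subset h2) h⟩
    have hypf : yp ∉ frontier P := by
      rw [hclosed.frontier_eq]
      rintro ⟨h1, h2⟩
      rcases hopp with ⟨-, h4⟩ | ⟨-, h4⟩
      · exact h4 h1
      · exact h2 h4
    have hpar : ∀ t : ℝ, yp + (t : ℂ) * d = x + ((τ i + ε + t : ℝ) : ℂ) * d := by
      intro t
      rw [hyp]; push_cast; ring
    have hvp : ∀ j, ∀ t : ℝ, 0 ≤ t → yp + (t : ℂ) * d ≠ v j := by
      intro j t ht
      rw [hpar]
      exact hv j _ (by linarith)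
    have hHit : Hit v yp d = Hit v x d \ {i} := by
      ext j
      constructor
      · rintro ⟨t, ht, h⟩
        rw [hpar] at h
        have hjH : j ∈ Hit v x d := ⟨_, by linarith, h⟩
        refine ⟨hjH, ?_⟩
        rintro rfl
        have h2 := param_unique27 hP hd hv (hτ0 _ hjH) (hτ _ hjH) h
        linarith
      · rintro ⟨hjH, hji⟩
        have h2 := hε3 j hjH hji
        refine ⟨τ j - (τ i + ε), by linarith, ?_⟩
        rw [hpar]
        have h4 := hτ j hjH
        rw [show τ i + ε + (τ j - (τ i + ε)) = τ j by ring]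
        exact h4
    have hcard : (Hit v yp d).ncard = k := by
      rw [hHit, Set.ncard_sdiff_singleton_of_mem hi, hk]
      rfl
    have hih : yp ∈ P ↔ Odd (Hit v yp d).ncard := ih hypf hvp hcard
    rw [hxp, hih, hcard, hk, Nat.not_odd_iff_even]
    constructor
    · intro h
      exact h.add_one
    · intro h
      by_contra h1
      rw [Nat.not_even_iff_odd] at h1
      have h2 := h1.add_one
      exact (Nat.not_even_iff_odd.2 h) h2

end Pool.Agent.Lib.H82R
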