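import Pool.Agent.Lib.H82R.S01

/-! S04. There is a direction whose ray avoids the vertices (finitely many bad directions); the
set of sides met is stable. Hint for `hit_stable`: side i not met: ray closed, side compact,
positive distance; side i met: the ray contains no vertex, so det d (v i - x) and
det d (v (i+1) - x) have strictly opposite signs (if one is 0 the vertex is behind x, then the
only point of the side on the line is that vertex or the whole side is on the line, ...) and the
crossing parameter is > 0: open conditions. Finitely many i (ZMod n, n <> 0). -/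

namespace Pool.Agent.Lib.H82R

open Set Pool.Agent.Lib.H42I

theorem exists_dir {n : ℕ} [NeZero n] (v : ZMod n → ℂ) (x : ℂ) (hx : ∀ i, x ≠ v i) :
    ∃ d : ℂ, d ≠ 0 ∧ ∀ i, ∀ t : ℝ, 0 ≤ t → x + (t : ℂ) * d ≠ v i := by
  sorry

theorem hit_stable {n : ℕ} [NeZero n] (v : ZMod n → ℂ) (x d : ℂ) (hd : d ≠ 0)
    (hv : ∀ i, ∀ t : ℝ, 0 ≤ t → x + (t : ℂ) * d ≠ v i) :
    ∃ δ > 0, ∀ v' : ZMod n → ℂ, Near v v' δ → Hit v' x d = Hit v x d ∧
      ∀ i, ∀ t : ℝ, 0 ≤ t → x + (t : ℂ) * d ≠ v' i := by
  sorry

end Pool.Agent.Lib.H82R
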