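import Pool.Agent.Lib.H82R.S03
import Pool.Agent.Lib.H82R.S04

/-! S05. Inside and outside are stable under a small change of the vertices.
Hint: x has positive distance from frontier P (compact, = union of the sides); for v' close the
ball around x avoids frontier P' (every point of the new side i is within delta of the old side
i), is preconnected, and contains x, for which `parity` and `hit_stable` apply. -/

namespace Pool.Agent.Lib.H82R

open Set Metric Pool.Agent.Lib.H42I

/-- Sides move by less than `δ`. -/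
theorem side_near {n : ℕ} {v v' : ZMod n → ℂ} {δ : ℝ} (h : Near v v' δ) {i : ZMod n} {y : ℂ}
    (hy : y ∈ segment ℝ (v' i) (v' (i + 1))) :
    ∃ x ∈ segment ℝ (v i) (v (i + 1)), ‖y - x‖ < δ := by
  sorry

theorem stable_in {n : ℕ} {P : Set ℂ} {v : ZMod n → ℂ} (hP : IsPolygon P v) {x : ℂ}
    (hx : x ∈ interior P) :
    ∃ δ > 0, ∀ (P' : Set ℂ) (v' : ZMod n → ℂ), IsPolygon P' v' → Near v v' δ →
      ball x δ ⊆ interior P' := by
  sorry

theorem stable_out {n : ℕ} {P : Set ℂ} {v : ZMod n → ℂ} (hP : IsPolygon P v) {x : ℂ}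
    (hx : x ∉ P) :
    ∃ δ > 0, ∀ (P' : Set ℂ) (v' : ZMod n → ℂ), IsPolygon P' v' → Near v v' δ →
      Disjoint (ball x δ) P' := by
  sorry

end Pool.Agent.Lib.H82R
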