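import Pool.Agent.Lib.H82R.S05

/-! S06. Compact versions. Hint for `outer_stable`: P' is bounded uniformly: outside a big ball
that contains all sides of P' every point is outside P' (go to infinity along a ray from the
centre, `sep`, P' compact); then compactness of {y in the closed ball, dist y P >= eps} and
`stable_out`. -/

namespace Pool.Agent.Lib.H82R

open Set Metric Pool.Agent.Lib.H42I

theorem stable_compact {n : ℕ} {P : Set ℂ} {v : ZMod n → ℂ} (hP : IsPolygon P v) {K : Set ℂ}
    (hK : IsCompact K) (hKP : K ⊆ interior P) :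
    ∃ δ > 0, ∀ (P' : Set ℂ) (v' : ZMod n → ℂ), IsPolygon P' v' → Near v v' δ →
      ∀ x ∈ K, ball x δ ⊆ interior P' := by
  sorry

theorem outer_stable {n : ℕ} {P : Set ℂ} {v : ZMod n → ℂ} (hP : IsPolygon P v) {ε : ℝ}
    (hε : 0 < ε) :
    ∃ δ > 0, ∀ (P' : Set ℂ) (v' : ZMod n → ℂ), IsPolygon P' v' → Near v v' δ →
      ∀ y ∈ P', ∃ x ∈ P, ‖y - x‖ < ε := by
  sorry

end Pool.Agent.Lib.H82R
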