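import Pool.Agent.Lib.H82R.S02

/-! S07. A segment from an interior point of P to a point of P cannot cross the boundary exactly
once. (i) at a relative interior point of a side, transversally; (ii) at a vertex v i seen from m
as in the good case. Hint (ii): l y = det (m - v i) (y - v i) has strictly opposite signs at
v (i-1) and v (i+1); in a small disc around v i only the sides i-1 and i are met (`simple`); on
the side of l where v (i+1) is, side i cuts the half disc into two convex sectors
(det (v (i+1) - v i) (y - v i) of the sign of m, resp. the other sign), the first meets the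
segment from m, the second the segment to w in its closure, all these are in interior P (open),
`sep`; so both sides of side i near v i are inside, against `halfdisc`. -/

namespace Pool.Agent.Lib.H82R

open Set Pool.Agent.Lib.H42I

theorem no_pass_side {n : ℕ} {P : Set ℂ} {v : ZMod n → ℂ} (hP : IsPolygon P v) {m w x : ℂ}
    {i : ZMod n} (hm : m ∈ interior P) (hw : w ∈ P) (hx : x ∈ openSegment ℝ m w)
    (hxi : x ∈ openSegment ℝ (v i) (v (i + 1))) (hd : det (v (i + 1) - v i) (w - m) ≠ 0)
    (h1 : ∀ y ∈ segment ℝ m w, y ∈ frontier P → y = x) : False := by
  sorry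

theorem no_pass_vertex {n : ℕ} {P : Set ℂ} {v : ZMod n → ℂ} (hP : IsPolygon P v) {m w : ℂ}
    {i : ZMod n} (hm : m ∈ interior P) (hw : w ∈ P) (hx : v i ∈ openSegment ℝ m w)
    (hd : 0 < det (v i - v (i - 1)) (m - v i) * det (v (i + 1) - v i) (m - v i))
    (h1 : ∀ y ∈ segment ℝ m w, y ∈ frontier P → y = v i) : False := by
  sorry

end Pool.Agent.Lib.H82R
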