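import Pool.Agent.Lib.H82R.S01

/-! S08. A segment from m, which is strictly on the same side (w.r.t. the orientation a, b, c) of
the lines ab and bc, meets [a,b] u [b,c] at most once.
Proof: f z = det (b - a) (z - b), g z = det (c - b) (z - b), D = det (b - a) (c - b),
f m * g m > 0. x, y both on [a,b] or both on [b,c]: `line_once`. x on [b,c], y on [a,b], x <> y:
f (b + s (c - b)) = s D, g (b - t (b - a)) = t D with s, t >= 0. If x is nearer to m: f is affine,
f y = 0, so f x has the strict sign of f m, so D has the sign of f m; g m, g x = 0, so g y has the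
strict sign opposite to g m: D has the other sign. If y is nearer to m: the same with f and g
exchanged. -/

namespace Pool.Agent.Lib.H82R

open Set Pool.Agent.Lib.H42I

theorem two_sides_once {a b c m w x y : ℂ}
    (h : 0 < det (b - a) (m - b) * det (c - b) (m - b))
    (hx : x ∈ segment ℝ a b ∪ segment ℝ b c) (hy : y ∈ segment ℝ a b ∪ segment ℝ b c)
    (hxw : x ∈ segment ℝ m w) (hyw : y ∈ segment ℝ m w) : x = y := by
  sorry

end Pool.Agent.Lib.H82R
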