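import Pool.Agent.Lib.H82R.S06
import Pool.Agent.Lib.H82R.S07
import Pool.Agent.Lib.H82R.S08

/-! S09. END LEMMA: the last piece of a leg near a good end, stable in P', v', w', m'.
Hint. Interior: `stable_in`, a ball is convex. Side or vertex: take r with the ball of radius
2 r around w disjoint from all other sides of P (from those not through w), rho0 |u| < r and
w + s u inside for s <= rho0. For rho fixed and delta small: m' is inside P' (`stable_in`), m' is
strictly on the same side of the line(s) of P' at w (continuity of det), the other sides of P'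
do not meet the ball of radius r around w, in which [m', w'] lies. So [m', w'] meets the frontier
of P' in at most one point x (`line_once`, `two_sides_once`). If x is in the open segment:
x in a relative interior point of a side: `no_pass_side`; x a vertex (only v' i in the vertex
case): `no_pass_vertex`. Otherwise `segment_inside`. -/

namespace Pool.Agent.Lib.H82R

open Set Metric Pool.Agent.Lib.H42I

theorem end_lemma {n : ℕ} {P : Set ℂ} {v : ZMod n → ℂ} (hP : IsPolygon P v) {w u : ℂ}
    (hw : w ∈ P) (hu : u ≠ 0) (hg : GoodEnd P v w u)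
    (hs : ∃ s0 > 0, ∀ s : ℝ, 0 < s → s ≤ s0 → w + (s : ℂ) * u ∈ interior P) :
    ∃ ρ0 > 0, ∀ ρ : ℝ, 0 < ρ → ρ ≤ ρ0 → ∃ δ > 0, ∀ (P' : Set ℂ) (v' : ZMod n → ℂ),
      IsPolygon P' v' → Near v v' δ → ∀ w' ∈ P', ‖w' - w‖ < δ →
      ∀ m', ‖m' - (w + (ρ : ℂ) * u)‖ < δ →
        m' ∈ interior P' ∧ openSegment ℝ m' w' ⊆ interior P' := by
  sorry

end Pool.Agent.Lib.H82R
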