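import Pool.Agent.Lib.H82R.S09

/-! S10. LEG LEMMA. Hint: `end_lemma` at z (direction w - z) and at w (direction z - w) with one
small rho; on the segment [z', w'] the points z' + rho (w' - z') and w' + rho (z' - w') are close
to those of [z, w]; the middle piece is close to a compact subset of interior P
(`stable_compact`). -/

namespace Pool.Agent.Lib.H82R

open Set Metric Pool.Agent.Lib.H42I

theorem leg {n : ℕ} {P : Set ℂ} {v : ZMod n → ℂ} (hP : IsPolygon P v) {z w : ℂ} (hzw : z ≠ w)
    (hz : z ∈ P) (hw : w ∈ P) (gz : GoodEnd P v z (w - z)) (gw : GoodEnd P v w (z - w))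
    (hseg : openSegment ℝ z w ⊆ interior P) :
    ∃ δ > 0, ∀ (P' : Set ℂ) (v' : ZMod n → ℂ), IsPolygon P' v' → Near v v' δ →
      ∀ z' ∈ P', ‖z' - z‖ < δ → ∀ w' ∈ P', ‖w' - w‖ < δ → openSegment ℝ z' w' ⊆ interior P' := by
  sorry

/-- A leg that leaves or reaches a side in its relative interior is transversal to it. -/
theorem good_of_openSegment {n : ℕ} {P : Set ℂ} {v : ZMod n → ℂ} (hP : IsPolygon P v)
    {w m : ℂ} {i : ZMod n} (hw : w ∈ openSegment ℝ (v i) (v (i + 1))) (hm : m ≠ w)
    (h : openSegment ℝ w m ⊆ interior P) : det (v (i + 1) - v i) (m - w) ≠ 0 := by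
  sorry

end Pool.Agent.Lib.H82R
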