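import Pool.Agent.Lib.H82R.Base

/-! S11. Continuity of reflections and of crossing points (pure plane geometry). -/

namespace Pool.Agent.Lib.H82R

open Set Pool.Agent.Lib.H42I

/-- The point `w` reflected in the line `a b`. -/
noncomputable def reflPt (a b w : ℂ) : ℂ := a + refl (b - a) (w - a)

private theorem s11_refl_self {u : ℂ} (hu : u ≠ 0) : refl u u = u := by
  have h : (starRingEnd ℂ) u ≠ 0 := (map_ne_zero _).2 hu
  unfold H42I.refl
  field_simp

private theorem s11_os {a b : ℂ} {s : ℝ} (h0 : 0 < s) (h1 : s < 1) :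
    a + (s : ℂ) * (b - a) ∈ openSegment ℝ a b := by
  refine ⟨1 - s, s, by linarith, h0, by ring, ?_⟩
  simp only [Complex.real_smul]
  push_cast
  ring

private theorem s11_os' {a b x : ℂ} (h : x ∈ openSegment ℝ a b) :
    ∃ s : ℝ, 0 < s ∧ s < 1 ∧ x = a + (s : ℂ) * (b - a) := by
  obtain ⟨r, s, hr, hs, hrs, rfl⟩ := h
  refine ⟨s, hs, by linarith, ?_⟩
  have hr' : r = 1 - s := by linarith
  subst hr'
  simp only [Complex.real_smul]
  push_cast
  ring

private theorem s11_cramer (p q r : ℂ) :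
    ((det p q : ℝ) : ℂ) * r = ((det p r : ℝ) : ℂ) * q + ((det r q : ℝ) : ℂ) * p := by
  unfold det
  apply Complex.ext
  · simp only [Complex.add_re, Complex.mul_re, Complex.ofReal_re, Complex.ofReal_im, zero_mul,
      sub_zero]
    ring
  · simp only [Complex.add_im, Complex.mul_im, Complex.ofReal_re, Complex.ofReal_im, zero_mul,
      add_zero]
    ring

private theorem s11_det_cont {f g : ℂ × ℂ × ℂ × ℂ → ℂ} (hf : Continuous f) (hg : Continuous g) :
    Continuous fun p => det (f p) (g p) := by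
  unfold det
  fun_prop

theorem refl_smul (u d : ℂ) (t : ℝ) : refl u ((t : ℂ) * d) = (t : ℂ) * refl u d := by
  unfold H42I.refl
  rw [map_mul, Complex.conj_ofReal]
  ring

theorem refl_add (u d e : ℂ) : refl u (d + e) = refl u d + refl u e := by
  unfold H42I.refl
  rw [map_add]
  ring

theorem refl_refl {u : ℂ} (hu : u ≠ 0) (d : ℂ) : refl u (refl u d) = d := by
  have h : (starRingEnd ℂ) u ≠ 0 := (map_ne_zero _).2 hu
  unfold H42I.refl
  rw [map_mul, map_div₀, Complex.conj_conj, Complex.conj_conj]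
  field_simp

theorem refl_ne_zero {u d : ℂ} (hu : u ≠ 0) (hd : d ≠ 0) : refl u d ≠ 0 := by
  have h : (starRingEnd ℂ) u ≠ 0 := (map_ne_zero _).2 hu
  have h' : (starRingEnd ℂ) d ≠ 0 := (map_ne_zero _).2 hd
  unfold H42I.refl
  exact mul_ne_zero (div_ne_zero hu h) h'

theorem reflPt_eq {a b x : ℂ} (hab : a ≠ b) (hx : x ∈ segment ℝ a b) (d : ℂ) :
    reflPt a b (x + d) = x + refl (b - a) d := by
  obtain ⟨r, s, hr, hs, hrs, rfl⟩ := hx
  have hu : b - a ≠ 0 := sub_ne_zero.2 hab.symm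
  have hr' : r = 1 - s := by linarith
  subst hr'
  have e : (1 - s) • a + s • b + d - a = (s : ℂ) * (b - a) + d := by
    simp only [Complex.real_smul]
    push_cast
    ring
  unfold reflPt
  rw [e, refl_add, refl_smul, s11_refl_self hu]
  simp only [Complex.real_smul]
  push_cast
  ring

theorem reflPt_reflPt {a b : ℂ} (hab : a ≠ b) (w : ℂ) : reflPt a b (reflPt a b w) = w := by
  have hu : b - a ≠ 0 := sub_ne_zero.2 hab.symm
  unfold reflPt
  rw [add_sub_cancel_left, refl_refl hu]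
  ring

theorem det_refl {u : ℂ} (hu : u ≠ 0) (d : ℂ) : det u (refl u d) = -det u d := by
  have h : (starRingEnd ℂ) u ≠ 0 := (map_ne_zero _).2 hu
  have hd : ∀ e : ℂ, det u e = ((starRingEnd ℂ) u * e).im := by
    intro e
    simp [det]
    ring
  rw [hd, hd]
  have e : (starRingEnd ℂ) u * refl u d = (starRingEnd ℂ) ((starRingEnd ℂ) u * d) := by
    unfold H42I.refl
    rw [map_mul, Complex.conj_conj]
    field_simp
  rw [e, Complex.conj_im]

theorem refl_cont {u d : ℂ} (hu : u ≠ 0) {ε : ℝ} (hε : 0 < ε) :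
    ∃ δ > 0, ∀ u' d' : ℂ, ‖u' - u‖ < δ → ‖d' - d‖ < δ → ‖refl u' d' - refl u d‖ < ε := by
  have hc : ContinuousAt (fun p : ℂ × ℂ => refl p.1 p.2) (u, d) := by
    unfold H42I.refl
    refine ContinuousAt.mul (ContinuousAt.div ?_ ?_ ((map_ne_zero _).2 hu)) ?_
    · exact continuous_fst.continuousAt
    · exact (Complex.continuous_conj.comp continuous_fst).continuousAt
    · exact (Complex.continuous_conj.comp continuous_snd).continuousAt
  rw [Metric.continuousAt_iff] at hc
  obtain ⟨δ, hδ, h⟩ := hc ε hε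
  refine ⟨δ, hδ, fun u' d' h1 h2 => ?_⟩
  have h3 := @h (u', d') (by
    rw [Prod.dist_eq]
    exact max_lt (by rw [dist_eq_norm]; exact h1) (by rw [dist_eq_norm]; exact h2))
  rw [dist_eq_norm] at h3
  exact h3

theorem reflPt_cont {a b w : ℂ} (hab : a ≠ b) {ε : ℝ} (hε : 0 < ε) :
    ∃ δ > 0, ∀ a' b' w' : ℂ, ‖a' - a‖ < δ → ‖b' - b‖ < δ → ‖w' - w‖ < δ →
      ‖reflPt a' b' w' - reflPt a b w‖ < ε := by
  have hc : ContinuousAt (fun p : ℂ × ℂ × ℂ => reflPt p.1 p.2.1 p.2.2) (a, b, w) := by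
    unfold reflPt H42I.refl
    refine ContinuousAt.add continuous_fst.continuousAt
      (ContinuousAt.mul (ContinuousAt.div ?_ ?_ ((map_ne_zero _).2 (sub_ne_zero.2 hab.symm))) ?_)
    · exact Continuous.continuousAt (by fun_prop)
    · exact (Complex.continuous_conj.comp (by fun_prop)).continuousAt
    · exact (Complex.continuous_conj.comp (by fun_prop)).continuousAt
  rw [Metric.continuousAt_iff] at hc
  obtain ⟨δ, hδ, h⟩ := hc ε hε
  refine ⟨δ, hδ, fun a' b' w' h1 h2 h4 => ?_⟩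
  have h3 := @h (a', b', w') (by
    rw [Prod.dist_eq, Prod.dist_eq]
    exact max_lt (by rw [dist_eq_norm]; exact h1) (max_lt (by rw [dist_eq_norm]; exact h2)
      (by rw [dist_eq_norm]; exact h4)))
  rw [dist_eq_norm] at h3
  exact h3

theorem cross_cont {a b z w : ℂ} {t : ℝ} (ht0 : 0 < t) (ht1 : t < 1)
    (hx : z + (t : ℂ) * (w - z) ∈ openSegment ℝ a b) (hd : det (b - a) (w - z) ≠ 0) {ε : ℝ}
    (hε : 0 < ε) :
    ∃ δ > 0, ∀ a' b' z' w' : ℂ, ‖a' - a‖ < δ → ‖b' - b‖ < δ → ‖z' - z‖ < δ → ‖w' - w‖ < δ →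
      ∃ t' : ℝ, 0 < t' ∧ t' < 1 ∧ |t' - t| < ε ∧ z' + (t' : ℂ) * (w' - z') ∈ openSegment ℝ a' b' := by
  obtain ⟨s, hs0, hs1, hs⟩ := s11_os' hx
  have hT : ContinuousAt (fun p : ℂ × ℂ × ℂ × ℂ =>
      det (p.2.1 - p.1) (p.1 - p.2.2.1) / det (p.2.1 - p.1) (p.2.2.2 - p.2.2.1)) (a, b, z, w) :=
    ContinuousAt.div (s11_det_cont (by fun_prop) (by fun_prop)).continuousAt
      (s11_det_cont (by fun_prop) (by fun_prop)).continuousAt hd
  have hS : ContinuousAt (fun p : ℂ × ℂ × ℂ × ℂ =>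
      det (p.2.2.1 - p.1) (p.2.2.2 - p.2.2.1) / det (p.2.1 - p.1) (p.2.2.2 - p.2.2.1))
      (a, b, z, w) :=
    ContinuousAt.div (s11_det_cont (by fun_prop) (by fun_prop)).continuousAt
      (s11_det_cont (by fun_prop) (by fun_prop)).continuousAt hd
  have eaz : a - z = (t : ℂ) * (w - z) - (s : ℂ) * (b - a) := by
    linear_combination -hs
  have eT : det (b - a) (a - z) / det (b - a) (w - z) = t := by
    rw [eaz, det_sub_right, det_smul_right, det_smul_right, det_self, mul_zero, sub_zero,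
      mul_div_assoc, div_self hd, mul_one]
  have eza : z - a = (s : ℂ) * (b - a) + -((t : ℂ) * (w - z)) := by
    linear_combination hs
  have eS : det (z - a) (w - z) / det (b - a) (w - z) = s := by
    rw [det_comm (w - z) (z - a), eza, det_add_right, det_neg_right, det_smul_right,
      det_smul_right, det_self, mul_zero, neg_zero, add_zero, det_comm (b - a) (w - z)]
    rw [mul_neg, neg_neg, mul_div_assoc, div_self hd, mul_one]
  rw [Metric.continuousAt_iff] at hT hS
  obtain ⟨δ₁, hδ₁, h1⟩ := hT (min ε (min t (1 - t))) (lt_min hε (lt_min ht0 (by linarith)))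
  obtain ⟨δ₂, hδ₂, h2⟩ := hS (min s (1 - s)) (lt_min hs0 (by linarith))
  have hD : ContinuousAt (fun p : ℂ × ℂ × ℂ × ℂ => det (p.2.1 - p.1) (p.2.2.2 - p.2.2.1))
      (a, b, z, w) := (s11_det_cont (by fun_prop) (by fun_prop)).continuousAt
  rw [Metric.continuousAt_iff] at hD
  obtain ⟨δ₃, hδ₃, h3⟩ := hD |det (b - a) (w - z)| (abs_pos.2 hd)
  refine ⟨min δ₁ (min δ₂ δ₃), lt_min hδ₁ (lt_min hδ₂ hδ₃), fun a' b' z' w' ha hb hz hw => ?_⟩
  have hdist : dist (a', b', z', w') (a, b, z, w) < min δ₁ (min δ₂ δ₃) := by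
    rw [Prod.dist_eq, Prod.dist_eq, Prod.dist_eq]
    exact max_lt (by rw [dist_eq_norm]; exact ha) (max_lt (by rw [dist_eq_norm]; exact hb)
      (max_lt (by rw [dist_eq_norm]; exact hz) (by rw [dist_eq_norm]; exact hw)))
  have g1 := @h1 (a', b', z', w') (hdist.trans_le (min_le_left _ _))
  have g2 := @h2 (a', b', z', w')
    (hdist.trans_le ((min_le_right _ _).trans (min_le_left _ _)))
  have g3 := @h3 (a', b', z', w')
    (hdist.trans_le ((min_le_right _ _).trans (min_le_right _ _)))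
  simp only at g1 g2 g3
  rw [eT, Real.dist_eq] at g1
  rw [eS, Real.dist_eq] at g2
  rw [Real.dist_eq] at g3
  have hd' : det (b' - a') (w' - z') ≠ 0 := by
    intro h0
    rw [h0, zero_sub, abs_neg] at g3
    exact lt_irrefl _ g3
  set t' : ℝ := det (b' - a') (a' - z') / det (b' - a') (w' - z') with ht'
  set s' : ℝ := det (z' - a') (w' - z') / det (b' - a') (w' - z') with hs'
  have g1' := lt_min_iff.1 g1
  have g1'' := lt_min_iff.1 g1'.2
  have g2' := lt_min_iff.1 g2
  have k1 := abs_lt.1 g1''.1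
  have k2 := abs_lt.1 g1''.2
  have k3 := abs_lt.1 g2'.1
  have k4 := abs_lt.1 g2'.2
  refine ⟨t', by linarith, by linarith, g1'.1, ?_⟩
  have key : z' + (t' : ℂ) * (w' - z') = a' + (s' : ℂ) * (b' - a') := by
    have hc := s11_cramer (b' - a') (w' - z') (a' - z')
    have hdc : ((det (b' - a') (w' - z') : ℝ) : ℂ) ≠ 0 := by exact_mod_cast hd'
    have hneg : det (a' - z') (w' - z') = -det (z' - a') (w' - z') := by
      rw [← det_neg_left, neg_sub]
    rw [hneg] at hc
    rw [ht', hs']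
    push_cast at hc ⊢
    field_simp
    linear_combination -hc
  rw [key]
  exact s11_os (by linarith) (by linarith)

end Pool.Agent.Lib.H82R
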