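import Pool.Agent.Lib.H82R.S11

/-! S12. `Ray` and `Dep`. -/

namespace Pool.Agent.Lib.H82R

open Set Pool.Agent.Lib.H42I

theorem ray_dep {n : ℕ} {P : Set ℂ} {v : ZMod n → ℂ} {q w d : ℂ} (h : Ray P v q w d) :
    ∃ (z : ℂ) (t : ℝ), Dep P v q z d ∧ 0 < t ∧ w = z + (t : ℂ) * d ∧
      openSegment ℝ z w ⊆ interior P := by
  sorry

theorem dep_ray {n : ℕ} {P : Set ℂ} {v : ZMod n → ℂ} {q z d : ℂ} {t : ℝ} (h : Dep P v q z d)
    (ht : 0 < t) (hs : openSegment ℝ z (z + (t : ℂ) * d) ⊆ interior P) :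
    ∃ c : ℝ, 0 < c ∧ Ray P v q (z + (t : ℂ) * d) ((c : ℂ) * d) := by
  sorry

/-- A point of departure is `q` or a bounce point; the direction is not zero. -/
theorem dep_point {n : ℕ} {P : Set ℂ} {v : ZMod n → ℂ} {q z d : ℂ} (hP : IsPolygon P v)
    (h : Dep P v q z d) : d ≠ 0 ∧ (z = q ∨ ∃ i, z ∈ openSegment ℝ (v i) (v (i + 1))) := by
  sorry

end Pool.Agent.Lib.H82R
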