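import Pool.Agent.Lib.H82R.S10
import Pool.Agent.Lib.H82R.S12

/-! S13. ROBUST RAYS. The last leg may be aimed at any point near a given point of its line
(virtual targets behind walls allowed: 0 < t is arbitrary).
Proof by induction on `Dep`. start: d' = (w' - q') / t, t' = t. bounce: z1 = z + t1 d in side i,
leaves in direction refl d; target w = z1 + t refl d; virtual target w* = reflPt .. w = z1 + t d =
z + (t1 + t) d. For w' near w let w'* = reflPt (v' i) (v' (i+1)) w' (near w*, `reflPt_cont`); the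
induction hypothesis with t1 + t gives z' near z, d' near d, w'* = z' + T' d'. The leg from z' to
w'* crosses the new side i at z1' = z' + tau (w'* - z') near z1 (`cross_cont`;
det (v (i+1) - v i) d <> 0 by `good_of_openSegment`); [z', z1'] is inside P' by `leg`
(GoodEnd at z: q interior or relative interior of a side, `dep_point`, `good_of_openSegment`);
z' is in P' because it is q' (in interior P' by `stable_in`) or on a side of P' (`dep_point` for
P'). So Dep P' v' q' z1' (refl d'), and w' = reflPt (w'*) = z1' + (T' - tau T') refl d'. -/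

namespace Pool.Agent.Lib.H82R

open Set Metric Pool.Agent.Lib.H42I

private theorem s13_side_mem {n : ℕ} {P : Set ℂ} {v : ZMod n → ℂ} (hP : IsPolygon P v)
    {i : ZMod n} {x : ℂ} (hx : x ∈ openSegment ℝ (v i) (v (i + 1))) : x ∈ P := by
  have h1 : x ∈ frontier P := by
    rw [hP.frontier_eq]
    exact Set.mem_iUnion.2 ⟨i, openSegment_subset_segment ℝ _ _ hx⟩
  exact hP.compact.isClosed.frontier_subset h1

private theorem s13_ne {n : ℕ} {P : Set ℂ} {v : ZMod n → ℂ} (hP : IsPolygon P v) (i : ZMod n) :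
    v i ≠ v (i + 1) := by
  intro h
  have h1 := hP.inj h
  have h2 : (1 : ZMod n) = 0 := by simpa using h1
  have : Fact (1 < n) := ⟨by have := hP.three_le; omega⟩
  exact one_ne_zero h2

private theorem s13_mem {n : ℕ} {P : Set ℂ} {v : ZMod n → ℂ} (hP : IsPolygon P v) {q z d : ℂ}
    (hq : q ∈ P) (h : Dep P v q z d) : z ∈ P := by
  rcases (dep_point hP h).2 with rfl | ⟨j, hj⟩
  · exact hq
  · exact s13_side_mem hP hj

private theorem s13_good {n : ℕ} {P : Set ℂ} {v : ZMod n → ℂ} (hP : IsPolygon P v) {q z d : ℂ}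
    (hq : q ∈ interior P) (h : Dep P v q z d) {z1 : ℂ} (hne : z1 ≠ z)
    (hs : openSegment ℝ z z1 ⊆ interior P) : GoodEnd P v z (z1 - z) := by
  rcases (dep_point hP h).2 with rfl | ⟨j, hj⟩
  · exact Or.inl hq
  · exact Or.inr (Or.inl ⟨j, hj, good_of_openSegment hP hj hne hs⟩)

theorem dep_robust {n : ℕ} {P : Set ℂ} {v : ZMod n → ℂ} (hP : IsPolygon P v) {q : ℂ}
    (hq : q ∈ interior P) {z d : ℂ} (h : Dep P v q z d) :
    ∀ (t ε : ℝ), 0 < t → 0 < ε → ∃ δ > 0, ∀ (P' : Set ℂ) (v' : ZMod n → ℂ), IsPolygon P' v' →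
      Near v v' δ → ∀ q', ‖q' - q‖ < δ → ∀ w', ‖w' - (z + (t : ℂ) * d)‖ < δ →
      ∃ (z' d' : ℂ) (t' : ℝ), Dep P' v' q' z' d' ∧ ‖z' - z‖ < ε ∧ ‖d' - d‖ < ε ∧ 0 < t' ∧
        w' = z' + (t' : ℂ) * d' := by
  have hqP : q ∈ P := interior_subset hq
  induction h with
  | start d hd =>
    intro t ε ht hε
    have hdn : 0 < ‖d‖ := norm_pos_iff.2 hd
    have hm : 0 < min ε ‖d‖ := lt_min hε hdn
    refine ⟨min ε (t * min ε ‖d‖ / 2), lt_min hε (by positivity), ?_⟩
    intro P' v' hP' hv q' hq' w' hw'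
    have hq1 : ‖q' - q‖ < ε := lt_of_lt_of_le hq' (min_le_left _ _)
    have hq2 : ‖q' - q‖ < t * min ε ‖d‖ / 2 := lt_of_lt_of_le hq' (min_le_right _ _)
    have hw2 : ‖w' - (q + (t : ℂ) * d)‖ < t * min ε ‖d‖ / 2 := lt_of_lt_of_le hw' (min_le_right _ _)
    have htC : (t : ℂ) ≠ 0 := by exact_mod_cast ht.ne'
    have hdd : ‖(w' - q') / (t : ℂ) - d‖ < min ε ‖d‖ := by
      have e1 : (w' - q') / (t : ℂ) - d = ((w' - (q + (t : ℂ) * d)) - (q' - q)) / (t : ℂ) := by
        field_simp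
        ring
      rw [e1, norm_div, Complex.norm_real, Real.norm_of_nonneg ht.le, div_lt_iff₀ ht]
      calc ‖(w' - (q + (t : ℂ) * d)) - (q' - q)‖ ≤ ‖w' - (q + (t : ℂ) * d)‖ + ‖q' - q‖ := norm_sub_le _ _
        _ < t * min ε ‖d‖ / 2 + t * min ε ‖d‖ / 2 := add_lt_add hw2 hq2
        _ = min ε ‖d‖ * t := by ring
    refine ⟨q', (w' - q') / (t : ℂ), t, Dep.start _ ?_, hq1, lt_of_lt_of_le hdd (min_le_left _ _), ht, ?_⟩
    · intro h0
      rw [h0, zero_sub, norm_neg] at hdd
      exact absurd hdd (not_lt.2 (min_le_right _ _))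
    · field_simp
      ring
  | bounce z d i t1 hdep ht1 hseg hz1 ih =>
    intro t ε ht hε
    have hne := s13_ne hP i
    have hu : v (i + 1) - v i ≠ 0 := sub_ne_zero.2 hne.symm
    have hd : d ≠ 0 := (dep_point hP hdep).1
    have ht1C : (t1 : ℂ) ≠ 0 := by exact_mod_cast ht1.ne'
    have hT : 0 < t1 + t := by linarith
    have hTC : ((t1 + t : ℝ) : ℂ) ≠ 0 := by exact_mod_cast hT.ne'
    set z1 : ℂ := z + (t1 : ℂ) * d with hz1def
    have hzz1 : z ≠ z1 := by
      intro h0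
      have : (t1 : ℂ) * d = 0 := by
        have h1 : z + (t1 : ℂ) * d = z + 0 := by rw [← hz1def, ← h0, add_zero]
        exact add_left_cancel h1
      rcases mul_eq_zero.1 this with h2 | h2
      · exact ht1C h2
      · exact hd h2
    have hseg' : openSegment ℝ z1 z ⊆ interior P := by
      rw [openSegment_symm]
      exact hseg
    have hdet1 := good_of_openSegment hP hz1 hzz1 hseg'
    have hdet : det (v (i + 1) - v i) d ≠ 0 := by
      intro h0
      apply hdet1
      have : z - z1 = ((-t1 : ℝ) : ℂ) * d := by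
        rw [hz1def]
        push_cast
        ring
      rw [this, det_smul_right, h0, mul_zero]
    -- the virtual target
    set e : ℂ := refl (v (i + 1) - v i) d with hedef
    set ws : ℂ := z + ((t1 + t : ℝ) : ℂ) * d with hwsdef
    have hws : reflPt (v i) (v (i + 1)) (z1 + (t : ℂ) * e) = ws := by
      rw [reflPt_eq hne (openSegment_subset_segment ℝ _ _ hz1), refl_smul, hedef, refl_refl hu, hwsdef,
        hz1def]
      push_cast
      ring
    -- the leg lemma
    obtain ⟨δ2, hδ2, hleg⟩ := leg hP hzz1 (s13_mem hP hqP hdep) (s13_side_mem hP hz1)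
      (s13_good hP hq hdep hzz1.symm hseg)
      (Or.inr (Or.inl ⟨i, hz1, hdet1⟩)) hseg
    obtain ⟨δ3, hδ3, hin⟩ := stable_in hP hq
    obtain ⟨δ4, hδ4, hrc⟩ := refl_cont (d := d) hu hε
    have hε2 : 0 < min ε δ2 := lt_min hε hδ2
    set ε2 : ℝ := min ε δ2 with hε2def
    have hN : 0 < ‖ws - z‖ + 1 := by positivity
    have hε1 : 0 < ε2 / (4 * (‖ws - z‖ + 1)) := by positivity
    have hτ0 : 0 < t1 / (t1 + t) := by positivity
    have hτ1 : t1 / (t1 + t) < 1 := by
      rw [div_lt_one hT]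
      linarith
    have hcz : z + ((t1 / (t1 + t) : ℝ) : ℂ) * (ws - z) = z1 := by
      rw [hwsdef, hz1def]
      push_cast
      have : ((t1 : ℂ) + (t : ℂ)) ≠ 0 := by exact_mod_cast hT.ne'
      field_simp
      ring
    have hdet2 : det (v (i + 1) - v i) (ws - z) ≠ 0 := by
      have : ws - z = ((t1 + t : ℝ) : ℂ) * d := by
        rw [hwsdef]
        ring
      rw [this, det_smul_right]
      exact mul_ne_zero hT.ne' hdet
    obtain ⟨δ1, hδ1, hcross⟩ := cross_cont (a := v i) (b := v (i + 1)) (z := z) (w := ws) hτ0 hτ1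
      (by rw [hcz]; exact hz1) hdet2 hε1
    have hε0 : 0 < min δ2 (min δ1 (min δ4 (ε2 / 8))) :=
      lt_min hδ2 (lt_min hδ1 (lt_min hδ4 (by positivity)))
    obtain ⟨δ0, hδ0, hih⟩ := ih (t1 + t) _ hT hε0
    have hε5 : 0 < min δ0 (min δ1 (ε2 / 4)) := lt_min hδ0 (lt_min hδ1 (by positivity))
    obtain ⟨δ5, hδ5, hrp⟩ := reflPt_cont (w := z1 + (t : ℂ) * e) hne hε5
    refine ⟨min δ0 (min δ1 (min δ2 (min δ3 (min (δ4 / 2) δ5)))), lt_min hδ0 (lt_min hδ1 (lt_min hδ2
      (lt_min hδ3 (lt_min (by positivity) hδ5)))), ?_⟩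
    intro P' v' hP' hv q' hq' w' hw'
    have m0 : min δ0 (min δ1 (min δ2 (min δ3 (min (δ4 / 2) δ5)))) ≤ δ0 := min_le_left _ _
    have m1 : min δ0 (min δ1 (min δ2 (min δ3 (min (δ4 / 2) δ5)))) ≤ δ1 :=
      (min_le_right _ _).trans (min_le_left _ _)
    have m2 : min δ0 (min δ1 (min δ2 (min δ3 (min (δ4 / 2) δ5)))) ≤ δ2 :=
      (min_le_right _ _).trans ((min_le_right _ _).trans (min_le_left _ _))
    have m3 : min δ0 (min δ1 (min δ2 (min δ3 (min (δ4 / 2) δ5)))) ≤ δ3 :=
      (min_le_right _ _).trans ((min_le_right _ _).trans ((min_le_right _ _).trans (min_le_left _ _)))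
    have m4 : min δ0 (min δ1 (min δ2 (min δ3 (min (δ4 / 2) δ5)))) ≤ δ4 / 2 :=
      (min_le_right _ _).trans ((min_le_right _ _).trans ((min_le_right _ _).trans
        ((min_le_right _ _).trans (min_le_left _ _))))
    have m5 : min δ0 (min δ1 (min δ2 (min δ3 (min (δ4 / 2) δ5)))) ≤ δ5 :=
      (min_le_right _ _).trans ((min_le_right _ _).trans ((min_le_right _ _).trans
        ((min_le_right _ _).trans (min_le_right _ _))))
    have hne' := s13_ne hP' i
    have hu' : v' (i + 1) - v' i ≠ 0 := sub_ne_zero.2 hne'.symm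
    set wst : ℂ := reflPt (v' i) (v' (i + 1)) w' with hwst
    have hwn : ‖wst - ws‖ < min δ0 (min δ1 (ε2 / 4)) := by
      rw [← hws, hwst]
      exact hrp _ _ _ ((hv i).trans_le m5) ((hv (i + 1)).trans_le m5) (hw'.trans_le m5)
    have hwn0 : ‖wst - ws‖ < δ0 := hwn.trans_le (min_le_left _ _)
    have hwn1 : ‖wst - ws‖ < δ1 := hwn.trans_le ((min_le_right _ _).trans (min_le_left _ _))
    have hwn2 : ‖wst - ws‖ < ε2 / 4 := hwn.trans_le ((min_le_right _ _).trans (min_le_right _ _))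
    obtain ⟨z', d', T', hdep', hz', hd', hT', hwz'⟩ := hih P' v' hP' (hv.mono m0) q' (hq'.trans_le m0)
      wst hwn0
    have hz2 : ‖z' - z‖ < δ2 := hz'.trans_le (min_le_left _ _)
    have hz1' : ‖z' - z‖ < δ1 := hz'.trans_le ((min_le_right _ _).trans (min_le_left _ _))
    have hz8 : ‖z' - z‖ < ε2 / 8 :=
      hz'.trans_le ((min_le_right _ _).trans ((min_le_right _ _).trans (min_le_right _ _)))
    have hd4 : ‖d' - d‖ < δ4 :=
      hd'.trans_le ((min_le_right _ _).trans ((min_le_right _ _).trans (min_le_left _ _)))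
    obtain ⟨τ', hτ'0, hτ'1, hττ, hmem⟩ := hcross (v' i) (v' (i + 1)) z' wst ((hv i).trans_le m1)
      ((hv (i + 1)).trans_le m1) hz1' hwn1
    have hwz2 : wst - z' = (T' : ℂ) * d' := by
      rw [hwz']
      ring
    have hzt : z' + (τ' : ℂ) * (wst - z') = z' + ((τ' * T' : ℝ) : ℂ) * d' := by
      rw [hwz2]
      push_cast
      ring
    -- closeness of the new bounce point
    have hclose : ‖z' + ((τ' * T' : ℝ) : ℂ) * d' - z1‖ < ε2 := by
      rw [← hzt, ← hcz]
      have e1 : z' + (τ' : ℂ) * (wst - z') - (z + ((t1 / (t1 + t) : ℝ) : ℂ) * (ws - z)) =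
          (z' - z) + (τ' : ℂ) * ((wst - ws) - (z' - z)) +
            ((τ' - t1 / (t1 + t) : ℝ) : ℂ) * (ws - z) := by
        push_cast
        ring
      rw [e1]
      have n1 : ‖(τ' : ℂ) * ((wst - ws) - (z' - z))‖ ≤ ‖wst - ws‖ + ‖z' - z‖ := by
        rw [norm_mul, Complex.norm_real, Real.norm_of_nonneg hτ'0.le]
        calc τ' * ‖(wst - ws) - (z' - z)‖ ≤ 1 * ‖(wst - ws) - (z' - z)‖ :=
              mul_le_mul_of_nonneg_right hτ'1.le (norm_nonneg _)
          _ = ‖(wst - ws) - (z' - z)‖ := one_mul _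
          _ ≤ _ := norm_sub_le _ _
      have n2 : ‖((τ' - t1 / (t1 + t) : ℝ) : ℂ) * (ws - z)‖ ≤ ε2 / 4 := by
        rw [norm_mul, Complex.norm_real, Real.norm_eq_abs]
        calc |τ' - t1 / (t1 + t)| * ‖ws - z‖ ≤ ε2 / (4 * (‖ws - z‖ + 1)) * (‖ws - z‖ + 1) :=
              mul_le_mul hττ.le (by linarith) (norm_nonneg _) hε1.le
          _ = ε2 / 4 := by
              field_simp
      calc ‖(z' - z) + (τ' : ℂ) * ((wst - ws) - (z' - z)) +
            ((τ' - t1 / (t1 + t) : ℝ) : ℂ) * (ws - z)‖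
          ≤ ‖(z' - z) + (τ' : ℂ) * ((wst - ws) - (z' - z))‖ +
            ‖((τ' - t1 / (t1 + t) : ℝ) : ℂ) * (ws - z)‖ := norm_add_le _ _
        _ ≤ (‖z' - z‖ + ‖(τ' : ℂ) * ((wst - ws) - (z' - z))‖) + ε2 / 4 :=
            add_le_add (norm_add_le _ _) n2
        _ ≤ (‖z' - z‖ + (‖wst - ws‖ + ‖z' - z‖)) + ε2 / 4 := by linarith [n1]
        _ < ε2 := by linarith
    have hT'' : 0 < τ' * T' := mul_pos hτ'0 hT'
    have hq3 : q' ∈ P' := by
      have h1 := hin P' v' hP' (hv.mono m3)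
      exact interior_subset (h1 (by
        rw [Metric.mem_ball, dist_eq_norm]
        exact hq'.trans_le m3))
    have hmem2 : z' + ((τ' * T' : ℝ) : ℂ) * d' ∈ openSegment ℝ (v' i) (v' (i + 1)) := by
      rw [← hzt]
      exact hmem
    have hsegn : openSegment ℝ z' (z' + ((τ' * T' : ℝ) : ℂ) * d') ⊆ interior P' :=
      hleg P' v' hP' (hv.mono m2) z' (s13_mem hP' hq3 hdep') hz2 _ (s13_side_mem hP' hmem2)
        (hclose.trans_le (min_le_right _ _))
    have hun : ‖v' (i + 1) - v' i - (v (i + 1) - v i)‖ < δ4 := by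
      have e1 : v' (i + 1) - v' i - (v (i + 1) - v i) = (v' (i + 1) - v (i + 1)) - (v' i - v i) := by
        ring
      rw [e1]
      calc ‖(v' (i + 1) - v (i + 1)) - (v' i - v i)‖ ≤ ‖v' (i + 1) - v (i + 1)‖ + ‖v' i - v i‖ :=
            norm_sub_le _ _
        _ < δ4 / 2 + δ4 / 2 := add_lt_add ((hv (i + 1)).trans_le m4) ((hv i).trans_le m4)
        _ = δ4 := by ring
    refine ⟨z' + ((τ' * T' : ℝ) : ℂ) * d', refl (v' (i + 1) - v' i) d', T' - τ' * T',
      Dep.bounce z' d' i (τ' * T') hdep' hT'' hsegn hmem2, hclose.trans_le (min_le_left _ _),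
      hrc _ _ hun hd4, ?_, ?_⟩
    · have : τ' * T' < 1 * T' := mul_lt_mul_of_pos_right hτ'1 hT'
      linarith
    · have e1 : wst = (z' + ((τ' * T' : ℝ) : ℂ) * d') + ((T' - τ' * T' : ℝ) : ℂ) * d' := by
        rw [hwz']
        push_cast
        ring
      have e2 : w' = reflPt (v' i) (v' (i + 1)) wst := by
        rw [hwst, reflPt_reflPt hne']
      rw [e2, e1, reflPt_eq hne' (openSegment_subset_segment ℝ _ _ hmem2), refl_smul]

end Pool.Agent.Lib.H82R
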