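import Pool.Agent.Lib.H82R.S13

/-! S14. All points near a point with a good arrival are illuminated in P'.
Hint: `ray_dep` gives the last departure z, `dep_robust` aims at y', `leg` (GoodEnd at z as in
S13, GoodEnd at y is the hypothesis up to a positive factor) shows that the leg is inside,
`dep_ray` turns it into a `Ray`. -/

namespace Pool.Agent.Lib.H82R

open Set Metric Pool.Agent.Lib.H42I

theorem goodEnd_smul {n : ℕ} {P : Set ℂ} {v : ZMod n → ℂ} {w u : ℂ} {c : ℝ} (hc : 0 < c)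
    (h : GoodEnd P v w u) : GoodEnd P v w ((c : ℂ) * u) := by
  sorry

theorem local_self {n : ℕ} {P : Set ℂ} {v : ZMod n → ℂ} (hP : IsPolygon P v) {q : ℂ}
    (hq : q ∈ interior P) :
    ∃ δ > 0, ∀ (P' : Set ℂ) (v' : ZMod n → ℂ), IsPolygon P' v' → Near v v' δ →
      ∀ q', ‖q' - q‖ < δ → ∀ y' ∈ P', ‖y' - q‖ < δ → y' = q' ∨ ∃ d', Ray P' v' q' y' d' := by
  sorry

theorem local_illum {n : ℕ} {P : Set ℂ} {v : ZMod n → ℂ} (hP : IsPolygon P v) {q : ℂ}
    (hq : q ∈ interior P) {y d : ℂ} (hy : y ∈ P) (hr : Ray P v q y d)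
    (hg : GoodEnd P v y (-d)) :
    ∃ δ > 0, ∀ (P' : Set ℂ) (v' : ZMod n → ℂ), IsPolygon P' v' → Near v v' δ →
      ∀ q', ‖q' - q‖ < δ → ∀ y' ∈ P', ‖y' - y‖ < δ → ∃ d', Ray P' v' q' y' d' := by
  sorry

end Pool.Agent.Lib.H82R
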