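import Pool.Agent.Lib.H82R.S14

/-! S15. THE CRITERION. Hint: finite subcover of P by the balls of `local_illum` / `local_self`
(halved radii or a Lebesgue number), `outer_stable`. -/

namespace Pool.Agent.Lib.H82R

open Set Metric Pool.Agent.Lib.H42I

private theorem finset_lower (t : Finset ℂ) (f : ℂ → ℝ) (hf : ∀ y ∈ t, 0 < f y) :
    ∃ r > 0, ∀ y ∈ t, r ≤ f y := by
  classical
  induction t using Finset.induction_on with
  | empty => exact ⟨1, one_pos, by simp⟩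
  | insert a s ha ih =>
    obtain ⟨r, hr, hr'⟩ := ih fun y hy => hf y (Finset.mem_insert_of_mem hy)
    refine ⟨min r (f a), lt_min hr (hf a (Finset.mem_insert_self a s)), fun y hy => ?_⟩
    rcases Finset.mem_insert.1 hy with rfl | hy
    · exact min_le_right _ _
    · exact (min_le_left _ _).trans (hr' y hy)

theorem criterion {n : ℕ} {P : Set ℂ} {v : ZMod n → ℂ} (hP : IsPolygon P v) {q : ℂ}
    (hq : q ∈ interior P) (h : ∀ y ∈ P, y = q ∨ ∃ d, Ray P v q y d ∧ GoodEnd P v y (-d)) :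
    ∃ ε > 0, ∀ (P' : Set ℂ) (v' : ZMod n → ℂ), IsPolygon P' v' → Near v v' ε →
      ∀ q', ‖q' - q‖ < ε → Illuminable P' v' q' := by
  have key : ∀ y, ∃ δ > 0, y ∈ P → ∀ (P' : Set ℂ) (v' : ZMod n → ℂ), IsPolygon P' v' →
      Near v v' δ → ∀ q', ‖q' - q‖ < δ → ∀ y' ∈ P', ‖y' - y‖ < δ →
        y' = q' ∨ ∃ d', Ray P' v' q' y' d' := by
    intro y
    by_cases hy : y ∈ P
    · rcases h y hy with rfl | ⟨d, hr, hg⟩
      · obtain ⟨δ, hδ, H⟩ := local_self hP hq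
        exact ⟨δ, hδ, fun _ => H⟩
      · obtain ⟨δ, hδ, H⟩ := local_illum hP hq hy hr hg
        exact ⟨δ, hδ, fun _ P' v' hP' hn q' hq' y' hy' hyy => Or.inr (H P' v' hP' hn q' hq' y' hy' hyy)⟩
    · exact ⟨1, one_pos, fun h => absurd h hy⟩
  choose δ hδ H using key
  obtain ⟨t, htP, ht⟩ := hP.compact.elim_nhds_subcover (fun y => ball y (δ y / 2))
    (fun y _ => ball_mem_nhds y (half_pos (hδ y)))
  obtain ⟨r, hr, hrt⟩ := finset_lower t (fun y => δ y / 2) (fun y _ => half_pos (hδ y))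
  obtain ⟨δ₁, hδ₁, H₁⟩ := outer_stable hP hr
  refine ⟨min r δ₁, lt_min hr hδ₁, fun P' v' hP' hn q' hq' y' hy' => ?_⟩
  obtain ⟨x, hx, hyx⟩ := H₁ P' v' hP' (hn.mono (min_le_right _ _)) y' hy'
  obtain ⟨y, hyt, hxy⟩ := Set.mem_iUnion₂.1 (ht hx)
  have h1 : r ≤ δ y / 2 := hrt y hyt
  have h2 : ‖x - y‖ < δ y / 2 := by
    rw [mem_ball, dist_eq_norm] at hxy
    exact hxy
  have h3 : ‖y' - y‖ < δ y := by
    calc ‖y' - y‖ = ‖(y' - x) + (x - y)‖ := by ring_nf
      _ ≤ ‖y' - x‖ + ‖x - y‖ := norm_add_le _ _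
      _ < δ y := by linarith
  have h4 : min r δ₁ ≤ δ y := by
    have := min_le_left r δ₁
    have := hδ y
    linarith
  exact H y (htP y hyt) P' v' hP' (hn.mono h4) q' (hq'.trans_le h4) y' hy' h3

end Pool.Agent.Lib.H82R
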