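import Pool.Agent.Lib.H82R.S02
import Pool.Agent.Lib.H42I.Cells1

/-! S16. At every vertex of a lattice polygon there is a cell all of whose points are on the good
side of both lines. Hint: write v i = (k al, l be). a = v (i-1) - v i and b = v (i+1) - v i are
parallel to the axes and not 0. Parallel: they are opposite (`simple`, otherwise one side would
contain a second point of the other), every adjacent cell is good, one exists by `cells_cover`.
Perpendicular: the product is positive exactly in the quadrant S between a and b and in the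
opposite quadrant -S. `cells_cover` gives an adjacent cell c. If c is not S or -S it is a
neighbour of -S; the common wall near v i is on the line of a or b but on the other side of v i, so
near v i it contains no point of frontier P (`vertex_isolated`); so `sep` (from S01) for a short segment from
c to -S near v i and `cell_inside_or_outside` show that -S is a cell of P. -/

namespace Pool.Agent.Lib.H82R

open Set Pool.Agent.Lib.H42I

theorem vertex_isolated {n : ℕ} {P : Set ℂ} {v : ZMod n → ℂ} (hP : IsPolygon P v) (i : ZMod n) :
    ∃ r > 0, ∀ j, j ≠ i → j ≠ i - 1 → ∀ y ∈ segment ℝ (v j) (v (j + 1)), r ≤ ‖y - v i‖ := by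
  sorry

theorem vertex_cell {n : ℕ} {P : Set ℂ} {v : ZMod n → ℂ} {α β : ℝ} (hL : IsLattice P v α β)
    (i : ZMod n) :
    ∃ c ∈ cells P α β,
      (∃ u w : ℝ, 0 ≤ u ∧ u ≤ 1 ∧ 0 ≤ w ∧ w ≤ 1 ∧ v i = ⟨α * (c.1 + u), β * (c.2 + w)⟩) ∧
      ∀ u w : ℝ, 0 < u → u < 1 → 0 < w → w < 1 → ∀ x : ℂ, x = ⟨α * (c.1 + u), β * (c.2 + w)⟩ →
        0 < det (v i - v (i - 1)) (x - v i) * det (v (i + 1) - v i) (x - v i) := by
  sorry

end Pool.Agent.Lib.H82R
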