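import Pool.Agent.Lib.H82R.S15
import Pool.Agent.Lib.H82R.S16
import Pool.Agent.Lib.H42I.Squares

/-! S17. Assembly: neighbourhoods of lattice polygons. -/

namespace Pool.Agent.Lib.H82R

open Set Pool.Agent.Lib.H42I

private theorem s17_re {a b x : ℂ} (h : a.re = b.re) (hx : x ∈ segment ℝ a b) : x.re = a.re := by
  obtain ⟨s, t, _, _, hst, rfl⟩ := hx
  simp only [Complex.add_re, Complex.smul_re, smul_eq_mul]
  rw [← h, ← add_mul, hst, one_mul]

private theorem s17_im {a b x : ℂ} (h : a.im = b.im) (hx : x ∈ segment ℝ a b) : x.im = a.im := by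
  obtain ⟨s, t, _, _, hst, rfl⟩ := hx
  simp only [Complex.add_im, Complex.smul_im, smul_eq_mul]
  rw [← h, ← add_mul, hst, one_mul]

/-- A generic point is not on the boundary. -/
theorem generic_interior {n : ℕ} {P : Set ℂ} {v : ZMod n → ℂ} {α β : ℝ}
    (hL : IsLattice P v α β) {q : ℂ} (hq : q ∈ P) (hg : Indep (q.re / α) (q.im / β)) :
    q ∈ interior P := by
  by_contra hn
  have hf : q ∈ frontier P := ⟨subset_closure hq, hn⟩
  rw [hL.poly.frontier_eq] at hf
  obtain ⟨i, hi⟩ := mem_iUnion.1 hf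
  obtain ⟨k, l, hkl⟩ := hL.vert i
  rcases hL.axis i with h | h
  · have h1 : q.re = k * α := by rw [s17_re h hi, hkl]
    have h2 : q.re / α = k := by rw [h1]; field_simp [hL.hα.ne']
    have h3 := hg (-k) 1 0 (by rw [h2]; push_cast; ring)
    exact one_ne_zero h3.2.1
  · have h1 : q.im = l * β := by rw [s17_im h hi, hkl]
    have h2 : q.im / β = l := by rw [h1]; field_simp [hL.hβ.ne']
    have h3 := hg (-l) 0 1 (by rw [h2]; push_cast; ring)
    exact one_ne_zero h3.2.2

/-- Every point has a good arrival. -/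
theorem good_arrival {n : ℕ} {P : Set ℂ} {v : ZMod n → ℂ} {α β : ℝ}
    (hL : IsLattice P v α β) {q : ℂ} (hq : q ∈ P) (hg : Indep (q.re / α) (q.im / β)) {y : ℂ}
    (hy : y ∈ P) : ∃ d, Ray P v q y d ∧ GoodEnd P v y (-d) := by
  have key : ∀ i, y = v i → ∃ d, Ray P v q y d ∧ GoodEnd P v y (-d) := by
    intro i hyi
    obtain ⟨c, hc, hcl, hpos⟩ := vertex_cell hL i
    obtain ⟨d, hd, _, _, τ₀, hτ₀, hτ⟩ := squares hL q hq hg (v i) c hc hcl
    refine ⟨d, hyi ▸ hd, Or.inr (Or.inr ⟨i, hyi, ?_⟩)⟩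
    obtain ⟨u, w, hu0, hu1, hw0, hw1, hx⟩ := hτ (τ₀ / 2) (by positivity) (by linarith)
    have h1 := hpos u w hu0 hu1 hw0 hw1 _ hx
    have h2 : v i - ((τ₀ / 2 : ℝ) : ℂ) * d - v i = ((τ₀ / 2 : ℝ) : ℂ) * (-d) := by ring
    rw [h2, det_smul_right, det_smul_right] at h1
    have h3 : 0 < τ₀ / 2 := by positivity
    have h4 : τ₀ / 2 * det (v i - v (i - 1)) (-d) * (τ₀ / 2 * det (v (i + 1) - v i) (-d)) =
        (τ₀ / 2) ^ 2 * (det (v i - v (i - 1)) (-d) * det (v (i + 1) - v i) (-d)) := by ring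
    rw [h4] at h1
    exact pos_of_mul_pos_right h1 (by positivity)
  by_cases hin : y ∈ interior P
  · obtain ⟨c, hc, hcl⟩ := cells_cover hL y hy
    obtain ⟨d, hd, _⟩ := squares hL q hq hg y c hc hcl
    exact ⟨d, hd, Or.inl hin⟩
  · have hf : y ∈ frontier P := ⟨subset_closure hy, hin⟩
    rw [hL.poly.frontier_eq] at hf
    obtain ⟨i, hi⟩ := mem_iUnion.1 hf
    by_cases h1 : y = v i
    · exact key i h1
    by_cases h2 : y = v (i + 1)
    · exact key (i + 1) h2
    have ho : y ∈ openSegment ℝ (v i) (v (i + 1)) :=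
      mem_openSegment_of_ne_left_right (Ne.symm h1) (Ne.symm h2) hi
    obtain ⟨c, hc, hcl⟩ := cells_cover hL y hy
    obtain ⟨d, hd, hre, him, _⟩ := squares hL q hq hg y c hc hcl
    refine ⟨d, hd, Or.inr (Or.inl ⟨i, ho, ?_⟩)⟩
    have hne : v i ≠ v (i + 1) := by
      intro he
      have h3 := s17_re (congrArg Complex.re he) hi
      have h4 := s17_im (congrArg Complex.im he) hi
      exact h1 (Complex.ext h3 h4)
    rcases hL.axis i with h | h
    · have h5 : (v (i + 1)).im - (v i).im ≠ 0 := by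
        intro h6
        exact hne (Complex.ext h (by linarith))
      have h7 : det (v (i + 1) - v i) (-d) = ((v (i + 1)).im - (v i).im) * d.re := by
        simp only [det, Complex.sub_re, Complex.sub_im, Complex.neg_re, Complex.neg_im, h]
        ring
      rw [h7]
      exact mul_ne_zero h5 hre
    · have h5 : (v (i + 1)).re - (v i).re ≠ 0 := by
        intro h6
        exact hne (Complex.ext (by linarith) h)
      have h7 : det (v (i + 1) - v i) (-d) = -(((v (i + 1)).re - (v i).re) * d.im) := by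
        simp only [det, Complex.sub_re, Complex.sub_im, Complex.neg_re, Complex.neg_im, h]
        ring
      rw [h7]
      exact neg_ne_zero.2 (mul_ne_zero h5 him)

theorem open_family {n : ℕ} {P : Set ℂ} {v : ZMod n → ℂ} {α β : ℝ}
    (hL : IsLattice P v α β) {q : ℂ} (hq : q ∈ P) (hg : Indep (q.re / α) (q.im / β)) :
    ∃ ε > 0, ∀ (P' : Set ℂ) (v' : ZMod n → ℂ), IsPolygon P' v' → Near v v' ε →
      ∀ q', ‖q' - q‖ < ε → Illuminable P' v' q' :=
  criterion hL.poly (generic_interior hL hq hg)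
    (fun _ hy => Or.inr (good_arrival hL hq hg hy))

end Pool.Agent.Lib.H82R
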